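import Pool.Agent.DOMI.Defs

open Filter Topology

namespace Pool.Agent.DOMI

variable {𝕜 : Type*} [RCLike 𝕜]

/-- a bounded scalar family converges along every ultrafilter -/
theorem ulim {ι : Type*} (U : Ultrafilter ι) (f : ι → 𝕜) (B : ℝ) (hf : ∀ n, ‖f n‖ ≤ B) :
    ∃ y : 𝕜, Tendsto f U (𝓝 y) ∧ ‖y‖ ≤ B := by
  have hc : IsCompact (Metric.closedBall (0 : 𝕜) B) := isCompact_closedBall _ _
  have hmem : Metric.closedBall (0 : 𝕜) B ∈ (U.map f : Filter 𝕜) := by
    rw [Ultrafilter.coe_map, Filter.mem_map]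
    exact Filter.univ_mem' (fun n => by simpa using hf n)
  obtain ⟨y, hy, hle⟩ := hc.ultrafilter_le_nhds (U.map f) (Filter.le_principal_iff.2 hmem)
  exact ⟨y, hle, by simpa using hy⟩

section crit

variable {E : Type*} [NormedAddCommGroup E] [NormedSpace 𝕜 E]

/-- limits along an ultrafilter of bounded families of functionals -/
theorem ulim_fun {ι : Type*} (U : Ultrafilter ι) (f : ι → E →L[𝕜] 𝕜) (B : ℝ)
    (hf : ∀ n x, ‖f n x‖ ≤ B * ‖x‖) :
    ∃ g : E →L[𝕜] 𝕜, (∀ x, Tendsto (fun n => f n x) U (𝓝 (g x))) ∧ ∀ x, ‖g x‖ ≤ B * ‖x‖ := by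
  have h : ∀ x, ∃ y : 𝕜, Tendsto (fun n => f n x) U (𝓝 y) ∧ ‖y‖ ≤ B * ‖x‖ :=
    fun x => ulim U _ _ (fun n => hf n x)
  choose g hg hb using h
  have hadd : ∀ x y, g (x + y) = g x + g y := fun x y => by
    refine tendsto_nhds_unique (hg (x + y)) ?_
    simpa using (hg x).add (hg y)
  have hsmul : ∀ (c : 𝕜) x, g (c • x) = c • g x := fun c x => by
    refine tendsto_nhds_unique (hg (c • x)) ?_
    simpa using (hg x).const_smul c
  refine ⟨LinearMap.mkContinuous
    { toFun := g, map_add' := hadd, map_smul' := hsmul } B hb, ?_, ?_⟩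
  · intro x; exact hg x
  · intro x; exact hb x

theorem l1_summable (a : l1 𝕜) : Summable (fun k => ‖a k‖) := by
  have := (lp.memℓp a).summable (by simp)
  simpa using this

theorem l1_norm (a : l1 𝕜) : ‖a‖ = ∑' k, ‖a k‖ := by
  have := lp.norm_eq_tsum_rpow (p := 1) (by simp) a
  simpa using this

theorem crit [CompleteSpace E] (m : ℕ → ℕ) (R : ∀ r, E →L[𝕜] L1 𝕜 (m r)) (C : ℝ)
    (hR : ∀ r T, ‖R r T‖ ≤ C * ‖T‖) (s : ∀ (_ : ℕ) (r : ℕ), Fin (m r))
    (hs : ∀ j k r, j < k → k ≤ r → s j r ≠ s k r) (t : ℕ → E) (K : ℝ)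
    (ht : ∀ k, ‖t k‖ ≤ K) (c0 : ℝ) (hc0 : 0 < c0)
    (h1 : ∀ k r l, l ≠ s k r → R r (t k) l = 0)
    (h2 : ∀ k r, c0 ≤ ‖R r (t k) (s k r)‖) : ComplementedL1 𝕜 E := by
  classical
  set U : Ultrafilter ℕ := hyperfilter ℕ with hU
  have hge : ∀ N : ℕ, ∀ᶠ r in (U : Filter ℕ), N ≤ r := fun N =>
    Nat.hyperfilter_le_atTop (eventually_ge_atTop N)
  have hne : (U : Filter ℕ).NeBot := U.neBot
  have hψ : ∀ j, ∃ g : E →L[𝕜] 𝕜, (∀ x, Tendsto (fun r => R r x (s j r)) U (𝓝 (g x))) ∧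
      ∀ x, ‖g x‖ ≤ C * ‖x‖ := fun j => by
    obtain ⟨g, hg, hb⟩ := ulim_fun U
      (fun r => (PiLp.proj (𝕜 := 𝕜) 1 (fun _ : Fin (m r) => 𝕜) (s j r)).comp (R r)) C
      (fun r x => (PiLp.norm_apply_le (R r x) (s j r)).trans (hR r x))
    exact ⟨g, hg, hb⟩
  choose ψ hψ hψb using hψ
  -- finite sums
  have hsum : ∀ (N : ℕ) (x : E), ∑ j ∈ Finset.range N, ‖ψ j x‖ ≤ C * ‖x‖ := by
    intro N x
    have hl : Tendsto (fun r => ∑ j ∈ Finset.range N, ‖R r x (s j r)‖) U
        (𝓝 (∑ j ∈ Finset.range N, ‖ψ j x‖)) :=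
      tendsto_finsetSum _ (fun j _ => (hψ j x).norm)
    refine le_of_tendsto hl ?_
    filter_upwards [hge N] with r hr
    have hinj : Set.InjOn (fun j => s j r) (Finset.range N : Set ℕ) := by
      intro j hj k hk hjk
      simp only [Finset.coe_range, Set.mem_Iio] at hj hk
      rcases lt_trichotomy j k with h | h | h
      · exact absurd hjk (hs j k r h (by omega))
      · exact h
      · exact absurd hjk.symm (hs k j r h (by omega))
    calc ∑ j ∈ Finset.range N, ‖R r x (s j r)‖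
        = ∑ i ∈ (Finset.range N).image (fun j => s j r), ‖R r x i‖ := by
          rw [Finset.sum_image hinj]
      _ ≤ ∑ i, ‖R r x i‖ :=
          Finset.sum_le_sum_of_subset_of_nonneg (Finset.subset_univ _)
            (fun i _ _ => norm_nonneg _)
      _ = ‖R r x‖ := (PiLp.norm_eq_of_L1 _).symm
      _ ≤ C * ‖x‖ := hR r x
  have hzero : ∀ j k, j ≠ k → ψ j (t k) = 0 := by
    intro j k hjk
    refine tendsto_nhds_unique (hψ j (t k)) ?_
    refine tendsto_const_nhds.congr' ?_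
    filter_upwards [hge (max j k)] with r hr
    have hj : j ≤ r := le_trans (le_max_left _ _) hr
    have hk : k ≤ r := le_trans (le_max_right _ _) hr
    refine (h1 k r _ ?_).symm
    rcases lt_or_gt_of_ne hjk with h | h
    · exact hs j k r h hk
    · exact (hs k j r h hj).symm
  have hdiag : ∀ k, c0 ≤ ‖ψ k (t k)‖ := fun k =>
    ge_of_tendsto (hψ k (t k)).norm (Filter.Eventually.of_forall (fun r => h2 k r))
  have hd0 : ∀ k, ψ k (t k) ≠ 0 := fun k h => by
    have := hdiag k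
    rw [h, norm_zero] at this
    exact absurd hc0 (not_lt.2 this)
  -- the projection
  have hmem : ∀ x, Memℓp (fun j => ψ j x) 1 := fun x => by
    refine memℓp_gen ?_
    have : Summable (fun j => ‖ψ j x‖) :=
      summable_of_sum_range_le (fun _ => norm_nonneg _) (hsum · x)
    simpa using this
  let Q0 : E →ₗ[𝕜] l1 𝕜 :=
    { toFun := fun x => ⟨fun j => ψ j x, hmem x⟩
      map_add' := fun x y => by ext j; simp
      map_smul' := fun c x => by ext j; simp }
  have hQ0 : ∀ x, ‖Q0 x‖ ≤ C * ‖x‖ := fun x => by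
    rw [l1_norm]
    exact Real.tsum_le_of_sum_range_le (fun _ => norm_nonneg _) (hsum · x)
  let Q : E →L[𝕜] l1 𝕜 := Q0.mkContinuous C hQ0
  have hQa : ∀ x j, Q x j = ψ j x := fun x j => rfl
  -- the embedding
  let u : ℕ → E := fun k => (ψ k (t k))⁻¹ • t k
  set B : ℝ := c0⁻¹ * K with hB
  have hu : ∀ k, ‖u k‖ ≤ B := fun k => by
    simp only [u, norm_smul, norm_inv, hB]
    have hK : 0 ≤ K := (norm_nonneg _).trans (ht k)
    exact mul_le_mul (inv_anti₀ hc0 (hdiag k)) (ht k) (norm_nonneg _) (inv_nonneg.2 hc0.le)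
  have hB0 : 0 ≤ B := (norm_nonneg _).trans (hu 0)
  have hsu : ∀ a : l1 𝕜, Summable (fun k => ‖a k • u k‖) := fun a => by
    refine Summable.of_nonneg_of_le (fun _ => norm_nonneg _) (fun k => ?_)
      ((l1_summable a).mul_right B)
    rw [norm_smul]
    exact mul_le_mul_of_nonneg_left (hu k) (norm_nonneg _)
  have hsu' : ∀ a : l1 𝕜, Summable (fun k => a k • u k) := fun a => (hsu a).of_norm
  let J0 : l1 𝕜 →ₗ[𝕜] E :=
    { toFun := fun a => ∑' k, a k • u k
      map_add' := fun a b => by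
        rw [← (hsu' a).tsum_add (hsu' b)]
        simp [add_smul]
      map_smul' := fun c a => by
        rw [RingHom.id_apply, ← (hsu' a).tsum_const_smul]
        simp [mul_smul] }
  have hJ0 : ∀ a, ‖J0 a‖ ≤ B * ‖a‖ := fun a => by
    calc ‖J0 a‖ = ‖∑' k, a k • u k‖ := rfl
      _ ≤ ∑' k, ‖a k • u k‖ := norm_tsum_le_tsum_norm (hsu a)
      _ ≤ ∑' k, ‖a k‖ * B := by
          refine Summable.tsum_le_tsum (fun k => ?_) (hsu a) ((l1_summable a).mul_right B)
          rw [norm_smul]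
          exact mul_le_mul_of_nonneg_left (hu k) (norm_nonneg _)
      _ = B * ‖a‖ := by rw [tsum_mul_right, l1_norm, mul_comm]
  let J : l1 𝕜 →L[𝕜] E := J0.mkContinuous B hJ0
  refine ⟨J, Q, fun a => ?_⟩
  ext j
  rw [hQa]
  have hJa : J a = ∑' k, a k • u k := rfl
  rw [hJa, (ψ j).map_tsum (hsu' a), tsum_eq_single j]
  · simp only [u, map_smul, smul_eq_mul]
    rw [inv_mul_cancel₀ (hd0 j), mul_one]
  · intro k hk
    simp only [u, map_smul, smul_eq_mul]
    rw [hzero j k hk.symm]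
    simp

/-- a space with a complemented copy of `ℓ_1` is not a Grothendieck space -/
theorem not_isGrothendieck (h : ComplementedL1 𝕜 E) : ¬ IsGrothendieck 𝕜 E := by
  classical
  obtain ⟨J, Q, hQJ⟩ := h
  intro hG
  set U : Ultrafilter ℕ := hyperfilter ℕ with hU
  have hge : ∀ N : ℕ, ∀ᶠ r in (U : Filter ℕ), N ≤ r := fun N =>
    Nat.hyperfilter_le_atTop (eventually_ge_atTop N)
  have hne : (U : Filter ℕ).NeBot := U.neBot
  -- partial sums of coordinates
  let σ0 : ℕ → (l1 𝕜 →ₗ[𝕜] 𝕜) := fun n =>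
    { toFun := fun a => ∑ j ∈ Finset.range n, a j
      map_add' := fun a b => by simp [Finset.sum_add_distrib]
      map_smul' := fun c a => by simp [Finset.mul_sum] }
  have hσ0 : ∀ n a, ‖σ0 n a‖ ≤ 1 * ‖a‖ := fun n a => by
    rw [one_mul, l1_norm]
    change ‖∑ j ∈ Finset.range n, a j‖ ≤ _
    exact (norm_sum_le _ _).trans
      ((l1_summable a).sum_le_tsum _ (fun _ _ => norm_nonneg _))
  let σ : ℕ → (l1 𝕜 →L[𝕜] 𝕜) := fun n => (σ0 n).mkContinuous 1 (hσ0 n)
  have hs : ∀ a : l1 𝕜, Summable (fun k => a k) := fun a => (l1_summable a).of_norm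
  let τ0 : l1 𝕜 →ₗ[𝕜] 𝕜 :=
    { toFun := fun a => ∑' j, a j
      map_add' := fun a b => by
        rw [← (hs a).tsum_add (hs b)]
        rfl
      map_smul' := fun c a => by
        rw [RingHom.id_apply, ← (hs a).tsum_const_smul]
        rfl }
  have hτ0 : ∀ a, ‖τ0 a‖ ≤ 1 * ‖a‖ := fun a => by
    rw [one_mul, l1_norm]
    exact norm_tsum_le_tsum_norm (l1_summable a)
  let τ : l1 𝕜 →L[𝕜] 𝕜 := τ0.mkContinuous 1 hτ0
  have hσa : ∀ n a, σ n a = ∑ j ∈ Finset.range n, a j := fun n a => rfl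
  have hτa : ∀ a, τ a = ∑' j, a j := fun a => rfl
  have hws : ∀ x : E, Tendsto (fun n => ((σ n).comp Q) x) atTop (𝓝 ((τ.comp Q) x)) := by
    intro x
    simp only [ContinuousLinearMap.comp_apply, hσa, hτa]
    exact (hs (Q x)).hasSum.tendsto_sum_nat
  obtain ⟨χ, hχ⟩ := hG (fun n => (σ n).comp Q) (τ.comp Q) hws
  have hχe : χ = τ.comp Q := by
    ext x
    exact tendsto_nhds_unique (hχ (ContinuousLinearMap.apply 𝕜 𝕜 x)) (hws x)
  let e : ℕ → l1 𝕜 := fun k => lp.single 1 k (1 : 𝕜)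
  have he : ∀ k, ‖e k‖ = 1 := fun k => by simp [e, lp.norm_single]
  obtain ⟨F, hF, -⟩ := ulim_fun (E := E →L[𝕜] 𝕜) U
    (fun k => ContinuousLinearMap.apply 𝕜 𝕜 (J (e k))) ‖J‖ (fun k f => by
      rw [ContinuousLinearMap.apply_apply]
      refine (f.le_opNorm _).trans ?_
      rw [mul_comm]
      refine mul_le_mul_of_nonneg_right ?_ (norm_nonneg _)
      refine (J.le_opNorm _).trans ?_
      rw [he, mul_one])
  have hF0 : ∀ n, F ((σ n).comp Q) = 0 := fun n => by
    refine tendsto_nhds_unique (hF _) ?_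
    refine tendsto_const_nhds.congr' ?_
    filter_upwards [hge n] with k hk
    rw [ContinuousLinearMap.apply_apply, ContinuousLinearMap.comp_apply, hQJ, hσa]
    symm
    refine Finset.sum_eq_zero (fun j hj => ?_)
    have : j ≠ k := by
      have := Finset.mem_range.1 hj
      omega
    simp [e, lp.single_apply, this]
  have hF1 : F (τ.comp Q) = 1 := by
    refine tendsto_nhds_unique (hF _) ?_
    refine tendsto_const_nhds.congr ?_
    intro k
    rw [ContinuousLinearMap.apply_apply, ContinuousLinearMap.comp_apply, hQJ, hτa,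
      tsum_eq_single k]
    · simp [e, lp.single_apply]
    · intro j hj
      simp [e, lp.single_apply, hj]
  have hlim := hχ F
  rw [hχe, hF1] at hlim
  simp only [hF0] at hlim
  exact one_ne_zero (tendsto_nhds_unique hlim tendsto_const_nhds)

end crit

end Pool.Agent.DOMI
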