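import Pool.Agent.DOMI.Crit
import Pool.Agent.ANT.NG

open Filter Topology

namespace Pool.Agent.DOMI

variable {𝕜 : Type*} [RCLike 𝕜] {E : Type*} [NormedAddCommGroup E] [NormedSpace 𝕜 E]

/-- Inexact criterion: functionals with bounded `ℓ_1` sums which are bounded below on the members
of a bounded sequence give a complemented copy of `ℓ_1`. -/
theorem crit2 [CompleteSpace E] (L : ℕ → E →L[𝕜] 𝕜) (M : ℝ)
    (hM : ∀ T, ∀ I : Finset ℕ, ∑ i ∈ I, ‖L i T‖ ≤ M * ‖T‖)
    (T : ℕ → E) (hT : ∀ i, ‖T i‖ ≤ M) (ε : ℝ) (hε : 0 < ε) (he : ∀ i, ε ≤ ‖L i (T i)‖) :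
    ComplementedL1 𝕜 E := by
  classical
  have hM0 : 0 ≤ M := (norm_nonneg _).trans (hT 0)
  -- Rosenthal's lemma
  obtain ⟨k0, hk0⟩ := exists_nat_ge (M * M / (ε / 2))
  obtain ⟨I, -, hI, hIs⟩ := ANT.kupka (fun j i => ‖L j (T i)‖) (ε / 2) (by positivity) k0
    Set.univ Set.infinite_univ (fun i _ F _ => by
      have h1 := hM (T i) F
      have h2 : M * ‖T i‖ ≤ M * M := mul_le_mul_of_nonneg_left (hT i) hM0
      have h3 : M * M ≤ k0 * (ε / 2) := by
        rwa [div_le_iff₀ (by positivity)] at hk0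
      linarith)
  let u : ℕ → ℕ := fun a => hI.natEmbedding _ a
  have hu : Function.Injective u := fun x y hxy =>
    (hI.natEmbedding _).injective (Subtype.ext hxy)
  have huI : ∀ a, u a ∈ I := fun a => (hI.natEmbedding _ a).2
  have hoff : ∀ k (F : Finset ℕ), k ∉ F → ∑ j ∈ F, ‖L (u j) (T (u k))‖ ≤ ε / 2 := by
    intro k F hk
    have h1 := hIs (u k) (huI k) (F.image u) (fun j hj => by
      obtain ⟨a, ha, rfl⟩ := Finset.mem_image.1 hj
      exact ⟨huI a, fun h => hk (by rw [← hu h]; exact ha)⟩)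
    rwa [Finset.sum_image (fun a _ b _ hab => hu hab)] at h1
  let ψ : ℕ → E →L[𝕜] 𝕜 := fun k => L (u k)
  let t : ℕ → E := fun k => T (u k)
  have hsum : ∀ (N : ℕ) (x : E), ∑ j ∈ Finset.range N, ‖ψ j x‖ ≤ M * ‖x‖ := by
    intro N x
    have h1 := hM x ((Finset.range N).image u)
    rwa [Finset.sum_image (fun a _ b _ hab => hu hab)] at h1
  have hdiag : ∀ k, ε ≤ ‖ψ k (t k)‖ := fun k => he (u k)
  have hd0 : ∀ k, ψ k (t k) ≠ 0 := fun k h => by
    have := hdiag k
    rw [h, norm_zero] at this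
    exact absurd hε (not_lt.2 this)
  have hmem : ∀ x, Memℓp (fun j => ψ j x) 1 := fun x => by
    refine memℓp_gen ?_
    have : Summable (fun j => ‖ψ j x‖) :=
      summable_of_sum_range_le (fun _ => norm_nonneg _) (hsum · x)
    simpa using this
  let Q0 : E →ₗ[𝕜] l1 𝕜 :=
    { toFun := fun x => ⟨fun j => ψ j x, hmem x⟩
      map_add' := fun x y => by ext j; simp
      map_smul' := fun c x => by ext j; simp }
  have hQ0 : ∀ x, ‖Q0 x‖ ≤ M * ‖x‖ := fun x => by
    rw [l1_norm]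
    exact Real.tsum_le_of_sum_range_le (fun _ => norm_nonneg _) (hsum · x)
  let Q : E →L[𝕜] l1 𝕜 := Q0.mkContinuous M hQ0
  have hQa : ∀ x j, Q x j = ψ j x := fun x j => rfl
  let v : ℕ → E := fun k => (ψ k (t k))⁻¹ • t k
  set B : ℝ := ε⁻¹ * M with hB
  have hv : ∀ k, ‖v k‖ ≤ B := fun k => by
    simp only [v, norm_smul, norm_inv, hB]
    exact mul_le_mul (inv_anti₀ hε (hdiag k)) (hT _) (norm_nonneg _) (inv_nonneg.2 hε.le)
  have hsu : ∀ a : l1 𝕜, Summable (fun k => ‖a k • v k‖) := fun a => by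
    refine Summable.of_nonneg_of_le (fun _ => norm_nonneg _) (fun k => ?_)
      ((l1_summable a).mul_right B)
    rw [norm_smul]
    exact mul_le_mul_of_nonneg_left (hv k) (norm_nonneg _)
  have hsu' : ∀ a : l1 𝕜, Summable (fun k => a k • v k) := fun a => (hsu a).of_norm
  let J0 : l1 𝕜 →ₗ[𝕜] E :=
    { toFun := fun a => ∑' k, a k • v k
      map_add' := fun a b => by
        rw [← (hsu' a).tsum_add (hsu' b)]
        simp [add_smul]
      map_smul' := fun c a => by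
        rw [RingHom.id_apply, ← (hsu' a).tsum_const_smul]
        simp [mul_smul] }
  have hJ0 : ∀ a, ‖J0 a‖ ≤ B * ‖a‖ := fun a => by
    calc ‖J0 a‖ = ‖∑' k, a k • v k‖ := rfl
      _ ≤ ∑' k, ‖a k • v k‖ := norm_tsum_le_tsum_norm (hsu a)
      _ ≤ ∑' k, ‖a k‖ * B := by
          refine Summable.tsum_le_tsum (fun k => ?_) (hsu a) ((l1_summable a).mul_right B)
          rw [norm_smul]
          exact mul_le_mul_of_nonneg_left (hv k) (norm_nonneg _)
      _ = B * ‖a‖ := by rw [tsum_mul_right, l1_norm, mul_comm]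
  let J : l1 𝕜 →L[𝕜] E := J0.mkContinuous B hJ0
  let e : ℕ → l1 𝕜 := fun k => lp.single 1 k (1 : 𝕜)
  have hJe : ∀ k, J (e k) = v k := fun k => by
    change ∑' j, (e k) j • v j = v k
    rw [tsum_eq_single k]
    · simp [e, lp.single_apply]
    · intro j hj
      simp [e, lp.single_apply, hj]
  -- `Q J` is close to the identity
  let t0 : l1 𝕜 →L[𝕜] l1 𝕜 := ContinuousLinearMap.id 𝕜 _ - Q.comp J
  have ht0e : ∀ k, ‖t0 (e k)‖ ≤ 1 / 2 := by
    intro k
    rw [l1_norm]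
    have hcoord : ∀ j, (t0 (e k)) j = if j = k then 0 else -((ψ k (t k))⁻¹ * ψ j (t k)) := by
      intro j
      have h1 : (t0 (e k)) j = (e k) j - ψ j (v k) := by
        change (e k - Q (J (e k))) j = _
        rw [hJe]
        rfl
      rw [h1]
      simp only [v, map_smul, smul_eq_mul]
      by_cases hj : j = k
      · subst hj
        rw [if_pos rfl, inv_mul_cancel₀ (hd0 j)]
        simp [e, lp.single_apply]
      · rw [if_neg hj]
        simp [e, lp.single_apply, hj]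
    refine Real.tsum_le_of_sum_range_le (fun _ => norm_nonneg _) (fun N => ?_)
    have h2 : ∑ j ∈ Finset.range N, ‖(t0 (e k)) j‖
        = ∑ j ∈ (Finset.range N).erase k, ‖(t0 (e k)) j‖ := by
      symm
      refine Finset.sum_subset (Finset.erase_subset _ _) (fun j _ hj2 => ?_)
      have h3 : j = k := by
        by_contra h4
        exact hj2 (Finset.mem_erase.2 ⟨h4, by assumption⟩)
      rw [hcoord, if_pos h3, norm_zero]
    rw [h2]
    have h5 : ∀ j ∈ (Finset.range N).erase k, ‖(t0 (e k)) j‖ ≤ ε⁻¹ * ‖ψ j (t k)‖ := by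
      intro j hj
      rw [hcoord, if_neg (Finset.ne_of_mem_erase hj), norm_neg, norm_mul, norm_inv]
      exact mul_le_mul_of_nonneg_right (inv_anti₀ hε (hdiag k)) (norm_nonneg _)
    refine (Finset.sum_le_sum h5).trans ?_
    rw [← Finset.mul_sum]
    have h6 := hoff k ((Finset.range N).erase k) (Finset.notMem_erase _ _)
    calc ε⁻¹ * ∑ j ∈ (Finset.range N).erase k, ‖ψ j (t k)‖ ≤ ε⁻¹ * (ε / 2) :=
          mul_le_mul_of_nonneg_left h6 (inv_nonneg.2 hε.le)
      _ = 1 / 2 := by field_simp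
  have ht0 : ‖t0‖ < 1 := by
    refine lt_of_le_of_lt (ContinuousLinearMap.opNorm_le_bound t0 (M := 1 / 2) (by norm_num)
      (fun a => ?_)) (by norm_num)
    have h1 : HasSum (fun k => lp.single 1 k (a k)) a :=
      lp.hasSum_single (by simp) a
    have h2 : HasSum (fun k => t0 (lp.single 1 k (a k))) (t0 a) := h1.mapL t0
    have h3 : ∀ k, ‖t0 (lp.single 1 k (a k))‖ ≤ ‖a k‖ * (1 / 2) := fun k => by
      have h4 : (lp.single 1 k (a k) : l1 𝕜) = a k • e k := by
        simp only [e]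
        rw [← lp.single_smul]
        simp
      rw [h4, map_smul, norm_smul]
      exact mul_le_mul_of_nonneg_left (ht0e k) (norm_nonneg _)
    have h5 : Summable (fun k => ‖a k‖ * (1 / 2)) := (l1_summable a).mul_right _
    rw [← h2.tsum_eq]
    refine (tsum_of_norm_bounded h5.hasSum h3).trans ?_
    rw [tsum_mul_right, l1_norm, mul_comm]
  let w : (l1 𝕜 →L[𝕜] l1 𝕜)ˣ := Units.oneSub t0 ht0
  have hw : (w : l1 𝕜 →L[𝕜] l1 𝕜) = Q.comp J := by
    rw [Units.val_oneSub]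
    change ContinuousLinearMap.id 𝕜 _ - (ContinuousLinearMap.id 𝕜 _ - Q.comp J) = _
    abel
  refine ⟨J.comp (w⁻¹ : (l1 𝕜 →L[𝕜] l1 𝕜)ˣ).val, Q, fun a => ?_⟩
  have h1 : (w : l1 𝕜 →L[𝕜] l1 𝕜) ((w⁻¹ : (l1 𝕜 →L[𝕜] l1 𝕜)ˣ).val a) = a := by
    change ((w : l1 𝕜 →L[𝕜] l1 𝕜) * (w⁻¹ : (l1 𝕜 →L[𝕜] l1 𝕜)ˣ).val) a = a
    rw [Units.mul_inv]
    rfl
  rw [hw] at h1
  exact h1

end Pool.Agent.DOMI
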