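import Mathlib

/-!
# Definitions for MP_89809f_an (large orbits)
-/

open Filter Topology

namespace Pool.Agent.DOMI

/-- The space `ℓ_1^m`. -/
abbrev L1 (𝕜 : Type*) [RCLike 𝕜] (m : ℕ) : Type _ := PiLp 1 (fun _ : Fin m => 𝕜)

/-- The space `ℓ_1`. -/
abbrev l1 (𝕜 : Type*) [RCLike 𝕜] : Type _ := lp (fun _ : ℕ => 𝕜) 1

/-- The `i`-th basis vector of `ℓ_1^m`. -/
def bv (𝕜 : Type*) [RCLike 𝕜] {m : ℕ} (i : Fin m) : L1 𝕜 m := PiLp.single 1 i (1 : 𝕜)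

/-- `E` is a Grothendieck space: every weak* convergent sequence in the dual of `E` is weakly
convergent. -/
def IsGrothendieck (𝕜 : Type*) [RCLike 𝕜] (E : Type*) [NormedAddCommGroup E]
    [NormedSpace 𝕜 E] : Prop :=
  ∀ (φ : ℕ → (E →L[𝕜] 𝕜)) (ψ : E →L[𝕜] 𝕜),
    (∀ x : E, Tendsto (fun n => φ n x) atTop (𝓝 (ψ x))) →
    ∃ χ : E →L[𝕜] 𝕜, ∀ F : (E →L[𝕜] 𝕜) →L[𝕜] 𝕜,
      Tendsto (fun n => F (φ n)) atTop (𝓝 (F χ))

/-- `E` contains a complemented copy of `ℓ_1`. -/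
def ComplementedL1 (𝕜 : Type*) [RCLike 𝕜] (E : Type*) [NormedAddCommGroup E]
    [NormedSpace 𝕜 E] : Prop :=
  ∃ (J : l1 𝕜 →L[𝕜] E) (Q : E →L[𝕜] l1 𝕜), ∀ a, Q (J a) = a

/-- `X` is reflexive. -/
def IsReflexive (𝕜 : Type*) [RCLike 𝕜] (X : Type*) [NormedAddCommGroup X]
    [NormedSpace 𝕜 X] : Prop :=
  Function.Surjective (NormedSpace.inclusionInDoubleDual 𝕜 X)

/-- An unconditional Schauder decomposition of `X` into the subspaces `F n`, given together with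
its coordinate projections `P n` (continuous, `P n` is the identity on `F n` and `0` on `F k`,
`k ≠ n`); `x = ∑ P n x` converges unconditionally for every `x`. -/
structure Decomposition (𝕜 : Type*) [RCLike 𝕜] (X : Type*) [NormedAddCommGroup X]
    [NormedSpace 𝕜 X] where
  F : ℕ → Submodule 𝕜 X
  P : ℕ → X →L[𝕜] X
  mem : ∀ n x, P n x ∈ F n
  self : ∀ n, ∀ x ∈ F n, P n x = x
  orth : ∀ n k, n ≠ k → ∀ x ∈ F k, P n x = 0
  sum : ∀ x, HasSum (fun n => P n x) x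

/-- The orbit of the vector `e i` under `G` consists of scalar multiples of the vectors `e j`, and
at least `N` different `j` occur. -/
def LargeOrbit {𝕜 : Type*} [RCLike 𝕜] {X : Type*} [NormedAddCommGroup X] [NormedSpace 𝕜 X]
    (G : Subgroup (X ≃L[𝕜] X)) {m : ℕ} (e : Fin m → X) (i : Fin m) (N : ℕ) : Prop :=
  (∀ g ∈ G, ∃ (j : Fin m) (c : 𝕜), g (e i) = c • e j) ∧
  ∃ S : Finset (Fin m), N ≤ S.card ∧ ∀ j ∈ S, ∃ g ∈ G, ∃ c : 𝕜, g (e i) = c • e j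

end Pool.Agent.DOMI
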