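import Pool.Agent.DOMI.Crit2

open Filter Topology

namespace Pool.Agent.DOMI

variable {𝕜 : Type*} [RCLike 𝕜] {E : Type*} [NormedAddCommGroup E] [NormedSpace 𝕜 E]

theorem exists_sign (z : 𝕜) : ∃ θ : 𝕜, ‖θ‖ ≤ 1 ∧ θ * z = (‖z‖ : 𝕜) := by
  by_cases hz : z = 0
  · exact ⟨0, by simp, by simp [hz]⟩
  · refine ⟨(‖z‖ : 𝕜)⁻¹ * (starRingEnd 𝕜) z, ?_, ?_⟩
    · rw [norm_mul, norm_inv, RCLike.norm_ofReal, abs_norm, RCLike.norm_conj,
        inv_mul_cancel₀ (norm_ne_zero_iff.2 hz)]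
    · have h1 : (‖z‖ : 𝕜) ≠ 0 := by
        rw [Ne, RCLike.ofReal_eq_zero]; exact norm_ne_zero_iff.2 hz
      rw [mul_assoc, RCLike.conj_mul]
      field_simp

theorem sum_biUnion_le' {ι κ : Type*} [DecidableEq ι] (s : Finset κ) (D : κ → Finset ι)
    (f : ι → ℝ) (hf : ∀ i, 0 ≤ f i) :
    ∑ i ∈ s.biUnion D, f i ≤ ∑ k ∈ s, ∑ i ∈ D k, f i := by
  classical
  induction s using Finset.induction_on with
  | empty => simp
  | insert a s ha ih =>
    rw [Finset.biUnion_insert, Finset.sum_insert ha]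
    have h1 := Finset.sum_union_inter (s₁ := D a) (s₂ := s.biUnion D) (f := f)
    have h2 : 0 ≤ ∑ i ∈ D a ∩ s.biUnion D, f i := Finset.sum_nonneg (fun i _ => hf i)
    linarith

/-- **Uniform domination**, abstract form. -/
theorem domination [CompleteSpace E] (hE : ¬ ComplementedL1 𝕜 E) (m : ℕ → ℕ) (R : ∀ n, E →L[𝕜] L1 𝕜 (m n))
    (C : ℝ) (hR : ∀ n T, ‖R n T‖ ≤ C * ‖T‖) (K ε : ℝ) (hε : 0 < ε) (B : Set ℕ)
    (hB : B.Infinite) :
    ∃ A ⊆ B, A.Infinite ∧ ∃ (L : ℝ) (h : ∀ n, Fin (m n) → ℝ),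
      (∀ n i, 0 ≤ h n i) ∧ (∀ n, ∑ i, h n i ≤ L) ∧
      ∀ T : E, ‖T‖ ≤ K → ∀ᶠ n in atTop, n ∈ A →
        ∑ i, max (‖R n T i‖ - h n i) 0 ≤ ε := by
  classical
  by_contra hcon
  have hcon' : ∀ A ⊆ B, A.Infinite → ∀ (L : ℝ) (h : ∀ n, Fin (m n) → ℝ),
      (∀ n i, 0 ≤ h n i) → (∀ n, ∑ i, h n i ≤ L) →
      ∃ T : E, ‖T‖ ≤ K ∧ {n | n ∈ A ∧ ε < ∑ i, max (‖R n T i‖ - h n i) 0}.Infinite := by
    intro A hAB hA L h h0 hL
    by_contra hno
    refine hcon ⟨A, hAB, hA, L, h, h0, hL, fun T hT => ?_⟩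
    by_contra hT2
    refine hno ⟨T, hT, ?_⟩
    rw [Filter.not_eventually] at hT2
    refine Nat.frequently_atTop_iff_infinite.1 (hT2.mono (fun n hn => ?_))
    push Not at hn
    exact hn
  -- the constants
  set D : ℝ := max (C * K) 0 + 1 with hD
  have hD1 : 0 < D := by positivity
  have hCK : C * K ≤ D := by
    have := le_max_left (C * K) 0
    linarith
  let Λ : ℕ → ℝ := fun k => 2 ^ k * (2 * D / ε)
  have hΛ : ∀ k, 0 < Λ k := fun k => by positivity
  -- total masses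
  have hmass : ∀ n (T : E), ‖T‖ ≤ K → 0 ≤ C → ∑ i, ‖R n T i‖ ≤ D := fun n T hT hC => by
    rw [← PiLp.norm_eq_of_L1]
    exact (hR n T).trans ((mul_le_mul_of_nonneg_left hT hC).trans hCK)
  have hC0 : 0 ≤ C := by
    obtain ⟨T, hT, hTi⟩ := hcon' B subset_rfl hB 0 (fun _ _ => 0) (fun _ _ => le_rfl)
      (fun _ => by simp)
    obtain ⟨n, hn⟩ := hTi.nonempty
    by_contra hC
    have h1 := hR n T
    have h2 : C * ‖T‖ ≤ 0 := mul_nonpos_of_nonpos_of_nonneg (not_le.1 hC).le (norm_nonneg _)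
    have h3 : ‖R n T‖ = 0 := le_antisymm (h1.trans h2) (norm_nonneg _)
    have h4 : R n T = 0 := norm_eq_zero.1 h3
    have h5 := hn.2
    rw [h4] at h5
    simp at h5
    linarith
  -- the recursion
  let St := (Set ℕ) × (∀ n, Fin (m n) → ℝ)
  let P : ℕ → St → Prop := fun k s => s.1 ⊆ B ∧ s.1.Infinite ∧ (∀ n i, 0 ≤ s.2 n i) ∧
    ∀ n, ∑ i, s.2 n i ≤ k * D
  have step : ∀ k (s : {s : St // P k s}), ∃ (T : E) (s' : {s : St // P (k + 1) s}),
      ‖T‖ ≤ K ∧ s'.1.1 ⊆ s.1.1 ∧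
      (∀ n ∈ s'.1.1, ε < ∑ i, max (‖R n T i‖ - Λ k * s.1.2 n i) 0) ∧
      ∀ n i, s'.1.2 n i = s.1.2 n i + ‖R n T i‖ := by
    rintro k ⟨⟨A, σ⟩, hAB, hA, hσ0, hσ⟩
    obtain ⟨T, hT, hTi⟩ := hcon' A hAB hA (Λ k * (k * D)) (fun n i => Λ k * σ n i)
      (fun n i => mul_nonneg (hΛ k).le (hσ0 n i))
      (fun n => by
        rw [← Finset.mul_sum]
        exact mul_le_mul_of_nonneg_left (hσ n) (hΛ k).le)
    refine ⟨T, ⟨⟨{n | n ∈ A ∧ ε < ∑ i, max (‖R n T i‖ - Λ k * σ n i) 0},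
      fun n i => σ n i + ‖R n T i‖⟩, ?_, hTi, ?_, ?_⟩, hT, ?_, ?_, ?_⟩
    · exact fun n hn => hAB hn.1
    · exact fun n i => add_nonneg (hσ0 n i) (norm_nonneg _)
    · intro n
      simp only [Finset.sum_add_distrib]
      push_cast
      have h1 := hσ n
      have h2 := hmass n T hT hC0
      simp only at h1
      linarith
    · exact fun n hn => hn.1
    · exact fun n hn => hn.2
    · exact fun n i => rfl
  choose Tn sn hTn hsub hbig hadd using step
  let s0 : {s : St // P 0 s} := ⟨(B, fun _ _ => 0), subset_rfl, hB, fun _ _ => le_rfl,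
    fun n => by simp⟩
  let f : ∀ k, {s : St // P k s} := fun k => Nat.rec s0 (fun k s => sn k s) k
  have hf0 : f 0 = s0 := rfl
  have hf : ∀ k, f (k + 1) = sn k (f k) := fun k => rfl
  let T : ℕ → E := fun k => Tn k (f k)
  have hT : ∀ k, ‖T k‖ ≤ K := fun k => hTn k (f k)
  have hσ : ∀ k n i, (f k).1.2 n i = ∑ j ∈ Finset.range k, ‖R n (T j) i‖ := by
    intro k
    induction k with
    | zero => intro n i; simp [hf0, s0]
    | succ k ih =>
      intro n i
      rw [Finset.sum_range_succ, ← ih n i, hf k]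
      exact hadd k (f k) n i
  have hA : ∀ k, (f (k + 1)).1.1 ⊆ (f k).1.1 := fun k => by rw [hf k]; exact hsub k (f k)
  have hA' : ∀ j k, j ≤ k → (f k).1.1 ⊆ (f j).1.1 := by
    intro j k hjk
    induction k, hjk using Nat.le_induction with
    | base => exact subset_rfl
    | succ k _ ih => exact (hA k).trans ih
  have hne : ∀ r, ∃ n, n ∈ (f (r + 1)).1.1 := fun r => (f (r + 1)).2.2.1.nonempty
  choose N hN using hne
  have hbigN : ∀ k r, k ≤ r → ε < ∑ i, max (‖R (N r) (T k) i‖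
      - Λ k * ∑ j ∈ Finset.range k, ‖R (N r) (T j) i‖) 0 := by
    intro k r hkr
    have h1 : N r ∈ (sn k (f k)).1.1 := by
      rw [← hf k]; exact hA' (k + 1) (r + 1) (by omega) (hN r)
    have h2 := hbig k (f k) (N r) h1
    simp only [hσ] at h2
    exact h2
  -- the sets
  let Dk : ∀ r, ℕ → Finset (Fin (m (N r))) := fun r k => Finset.univ.filter
    (fun i => Λ k * ∑ j ∈ Finset.range k, ‖R (N r) (T j) i‖ < ‖R (N r) (T k) i‖)
  let S : ∀ r, ℕ → Finset (Fin (m (N r))) := fun r k =>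
    if k ≤ r then (Dk r k) \ ((Finset.Ioc k r).biUnion (Dk r)) else ∅
  have hSdis : ∀ r j k, j < k → Disjoint (S r j) (S r k) := by
    intro r j k hjk
    rw [Finset.disjoint_left]
    intro i hi hik
    by_cases hk : k ≤ r
    · have hj : j ≤ r := by omega
      simp only [S, if_pos hj, if_pos hk, Finset.mem_sdiff, Finset.mem_biUnion,
        Finset.mem_Ioc, not_exists, not_and] at hi hik
      exact hi.2 k ⟨hjk, hk⟩ hik.1
    · simp only [S, if_neg hk] at hik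
      exact absurd hik (Finset.notMem_empty _)
  have hsmall : ∀ r j k, j < k → ∑ i ∈ Dk r k, ‖R (N r) (T j) i‖ ≤ ε / 2 * (1 / 2) ^ k := by
    intro r j k hjk
    have h1 : ∀ i ∈ Dk r k, ‖R (N r) (T j) i‖ ≤ (Λ k)⁻¹ * ‖R (N r) (T k) i‖ := by
      intro i hi
      have h2 := (Finset.mem_filter.1 hi).2
      have h3 : ‖R (N r) (T j) i‖ ≤ ∑ j ∈ Finset.range k, ‖R (N r) (T j) i‖ :=
        Finset.single_le_sum (f := fun j => ‖R (N r) (T j) i‖) (fun _ _ => norm_nonneg _)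
          (Finset.mem_range.2 hjk)
      rw [inv_mul_eq_div, le_div_iff₀ (hΛ k)]
      have h4 := mul_le_mul_of_nonneg_left h3 (hΛ k).le
      linarith
    calc ∑ i ∈ Dk r k, ‖R (N r) (T j) i‖
        ≤ ∑ i ∈ Dk r k, (Λ k)⁻¹ * ‖R (N r) (T k) i‖ := Finset.sum_le_sum h1
      _ = (Λ k)⁻¹ * ∑ i ∈ Dk r k, ‖R (N r) (T k) i‖ := by rw [Finset.mul_sum]
      _ ≤ (Λ k)⁻¹ * D := by
          refine mul_le_mul_of_nonneg_left ?_ (inv_nonneg.2 (hΛ k).le)
          exact (Finset.sum_le_sum_of_subset_of_nonneg (Finset.subset_univ _)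
            (fun _ _ _ => norm_nonneg _)).trans (hmass _ _ (hT k) hC0)
      _ = ε / 2 * (1 / 2) ^ k := by
          simp only [Λ]
          have h5 : D ≠ 0 := hD1.ne'
          have h6 : ε ≠ 0 := hε.ne'
          rw [div_pow, one_pow]
          field_simp
  have hSmass : ∀ r k, k ≤ r → ε / 2 ≤ ∑ i ∈ S r k, ‖R (N r) (T k) i‖ := by
    intro r k hkr
    have h1 : ε < ∑ i ∈ Dk r k, ‖R (N r) (T k) i‖ := by
      refine (hbigN k r hkr).trans_le ?_
      rw [Finset.sum_filter]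
      refine Finset.sum_le_sum (fun i _ => ?_)
      have h2 : 0 ≤ Λ k * ∑ j ∈ Finset.range k, ‖R (N r) (T j) i‖ :=
        mul_nonneg (hΛ k).le (Finset.sum_nonneg (fun _ _ => norm_nonneg _))
      split_ifs with h3
      · exact max_le (by linarith) (norm_nonneg _)
      · exact max_le (by linarith) le_rfl
    have h2 : ∑ i ∈ Dk r k, ‖R (N r) (T k) i‖ ≤ ∑ i ∈ S r k, ‖R (N r) (T k) i‖
        + ∑ i ∈ (Finset.Ioc k r).biUnion (Dk r), ‖R (N r) (T k) i‖ := by
      have h3 : Dk r k ⊆ S r k ∪ (Finset.Ioc k r).biUnion (Dk r) := by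
        intro i hi
        by_cases h4 : i ∈ (Finset.Ioc k r).biUnion (Dk r)
        · exact Finset.mem_union_right _ h4
        · refine Finset.mem_union_left _ ?_
          simp only [S, if_pos hkr]
          exact Finset.mem_sdiff.2 ⟨hi, h4⟩
      refine (Finset.sum_le_sum_of_subset_of_nonneg h3 (fun _ _ _ => norm_nonneg _)).trans ?_
      rw [← Finset.sum_union_inter]
      exact le_add_of_nonneg_right (Finset.sum_nonneg (fun _ _ => norm_nonneg _))
    have h4 : ∑ i ∈ (Finset.Ioc k r).biUnion (Dk r), ‖R (N r) (T k) i‖ ≤ ε / 2 := by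
      calc ∑ i ∈ (Finset.Ioc k r).biUnion (Dk r), ‖R (N r) (T k) i‖
          ≤ ∑ k' ∈ Finset.Ioc k r, ∑ i ∈ Dk r k', ‖R (N r) (T k) i‖ :=
            sum_biUnion_le' _ _ _ (fun _ => norm_nonneg _)
        _ ≤ ∑ k' ∈ Finset.Ioc k r, ε / 2 * (1 / 2) ^ k' := by
            refine Finset.sum_le_sum (fun k' hk' => ?_)
            exact hsmall r k k' (Finset.mem_Ioc.1 hk').1
        _ ≤ ∑ k' ∈ Finset.Ico 1 (r + 1), ε / 2 * (1 / 2) ^ k' := by
            refine Finset.sum_le_sum_of_subset_of_nonneg ?_ (fun _ _ _ => by positivity)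
            intro k' hk'
            rw [Finset.mem_Ioc] at hk'
            rw [Finset.mem_Ico]
            omega
        _ ≤ ε / 2 := by
            rw [← Finset.mul_sum]
            have h5 : ∑ k' ∈ Finset.Ico 1 (r + 1), (1 / 2 : ℝ) ^ k' ≤ 1 := by
              rw [Finset.sum_Ico_eq_sum_range]
              simp only [Nat.add_sub_cancel, pow_add, pow_one]
              rw [← Finset.mul_sum, geom_sum_eq (by norm_num)]
              have h6 : (0 : ℝ) < (1 / 2) ^ r := by positivity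
              have h7 : (1 / 2 : ℝ) * (((1 / 2) ^ r - 1) / (1 / 2 - 1)) = 1 - (1 / 2) ^ r := by
                field_simp
                ring
              rw [h7]
              linarith
            have h8 : 0 ≤ ε / 2 := by positivity
            nlinarith
    linarith
  -- the functionals
  have hθ := fun r k (i : Fin (m (N r))) => exists_sign (R (N r) (T k) i)
  choose θ hθ1 hθ2 using hθ
  let ℓ : ℕ → ℕ → (E →L[𝕜] 𝕜) := fun k r =>
    ∑ i ∈ S r k, θ r k i • (PiLp.proj (𝕜 := 𝕜) 1 (fun _ : Fin (m (N r)) => 𝕜) i).comp (R (N r))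
  have hℓ : ∀ k r x, ℓ k r x = ∑ i ∈ S r k, θ r k i * R (N r) x i := by
    intro k r x
    simp only [ℓ, ContinuousLinearMap.coe_sum', Finset.sum_apply]
    rfl
  have hℓb : ∀ k r x, ‖ℓ k r x‖ ≤ ∑ i ∈ S r k, ‖R (N r) x i‖ := by
    intro k r x
    rw [hℓ]
    refine (norm_sum_le _ _).trans (Finset.sum_le_sum (fun i _ => ?_))
    rw [norm_mul]
    calc ‖θ r k i‖ * ‖R (N r) x i‖ ≤ 1 * ‖R (N r) x i‖ :=
          mul_le_mul_of_nonneg_right (hθ1 r k i) (norm_nonneg _)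
      _ = _ := one_mul _
  have hℓs : ∀ (I : Finset ℕ) r x, ∑ k ∈ I, ‖ℓ k r x‖ ≤ C * ‖x‖ := by
    intro I r x
    calc ∑ k ∈ I, ‖ℓ k r x‖ ≤ ∑ k ∈ I, ∑ i ∈ S r k, ‖R (N r) x i‖ :=
          Finset.sum_le_sum (fun k _ => hℓb k r x)
      _ = ∑ i ∈ I.biUnion (S r), ‖R (N r) x i‖ := by
          rw [Finset.sum_biUnion]
          intro j _ k _ hjk
          rcases lt_or_gt_of_ne hjk with h | h
          · exact hSdis r j k h
          · exact (hSdis r k j h).symm
      _ ≤ ∑ i, ‖R (N r) x i‖ :=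
          Finset.sum_le_sum_of_subset_of_nonneg (Finset.subset_univ _)
            (fun _ _ _ => norm_nonneg _)
      _ = ‖R (N r) x‖ := (PiLp.norm_eq_of_L1 _).symm
      _ ≤ C * ‖x‖ := hR _ _
  set U : Ultrafilter ℕ := hyperfilter ℕ with hU
  have hge : ∀ N : ℕ, ∀ᶠ r in (U : Filter ℕ), N ≤ r := fun N =>
    Nat.hyperfilter_le_atTop (eventually_ge_atTop N)
  have hlim := fun k => ulim_fun U (ℓ k) C (fun r x => by
    have := hℓs {k} r x
    simpa using this)
  choose L hL hLb using hlim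
  refine hE (crit2 (𝕜 := 𝕜) L (max C K) ?_ T (fun k => (hT k).trans (le_max_right _ _)) (ε / 2)
    (by positivity) ?_)
  · intro x I
    refine le_trans ?_ (mul_le_mul_of_nonneg_right (le_max_left C K) (norm_nonneg x))
    refine le_of_tendsto (tendsto_finsetSum _ (fun k _ => (hL k x).norm)) ?_
    exact Filter.Eventually.of_forall (fun r => hℓs I r x)
  · intro k
    refine ge_of_tendsto (hL k (T k)).norm ?_
    filter_upwards [hge k] with r hr
    have h1 : ℓ k r (T k) = ((∑ i ∈ S r k, ‖R (N r) (T k) i‖ : ℝ) : 𝕜) := by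
      rw [hℓ, RCLike.ofReal_sum]
      exact Finset.sum_congr rfl (fun i _ => hθ2 r k i)
    rw [h1, RCLike.norm_ofReal]
    exact (hSmass r k hr).trans (le_abs_self _)

end Pool.Agent.DOMI
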