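import Pool.Agent.DOMI.Lit

open Filter Topology

namespace Pool.Agent.DOMI

variable {𝕜 : Type*} [RCLike 𝕜] {X : Type*} [NormedAddCommGroup X] [NormedSpace 𝕜 X]

theorem not_ant {E : Type*} [NormedAddCommGroup E] [NormedSpace 𝕜 E]
    (h : ComplementedL1 𝕜 E) : ¬ ANT.IsGrothendieck 𝕜 E := fun hG =>
  not_isGrothendieck h (fun φ ψ hφ => ⟨ψ, hG φ ψ hφ⟩)

/-- **Uniform domination** for the spaces of the question. -/
theorem domination_lit [CompleteSpace X] {m : ℕ → ℕ} {e : ℕ → ℕ → X} {c : ℕ → ℕ → X → 𝕜}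
    (h : ANT.IsL1Decomposition m e c) (hE : ¬ ComplementedL1 𝕜 (X →L[𝕜] X))
    (x : ℕ → X) (M : ℝ) (hx : ∀ n, ‖x n‖ ≤ M) (K ε : ℝ) (hε : 0 < ε) (B : Set ℕ)
    (hB : B.Infinite) :
    ∃ A ⊆ B, A.Infinite ∧ ∃ (L : ℝ) (b : ℕ → ℕ → ℝ),
      (∀ n i, 0 ≤ b n i) ∧ (∀ n, ∑ i ∈ Finset.range (m n), b n i ≤ L) ∧
      ∀ T : X →L[𝕜] X, ‖T‖ ≤ K → ∀ᶠ n in atTop, n ∈ A →
        ∑ i ∈ Finset.range (m n), max (‖c n i (T (x n))‖ - b n i) 0 ≤ ε := by
  classical
  obtain ⟨M', Q, hM0, heM, hQb, hQc, hQe⟩ := coords h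
  let R : ∀ n, (X →L[𝕜] X) →L[𝕜] L1 𝕜 (m n) := fun n =>
    (Q n).comp (ContinuousLinearMap.apply 𝕜 X (x n))
  have hRv : ∀ n T, R n T = Q n (T (x n)) := fun n T => rfl
  obtain ⟨A, hAB, hA, L, b, hb0, hbL, hbT⟩ := domination hE m R (M' * M) (fun n T => by
    rw [hRv]
    calc ‖Q n (T (x n))‖ ≤ M' * ‖T (x n)‖ := hQb _ _
      _ ≤ M' * (‖T‖ * M) := by
          refine mul_le_mul_of_nonneg_left ((T.le_opNorm _).trans ?_) hM0
          exact mul_le_mul_of_nonneg_left (hx n) (norm_nonneg _)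
      _ = M' * M * ‖T‖ := by ring) K ε hε B hB
  refine ⟨A, hAB, hA, L, fun n i => if hi : i < m n then b n ⟨i, hi⟩ else 0, ?_, ?_, ?_⟩
  · intro n i
    simp only
    split_ifs with hi
    · exact hb0 n _
    · exact le_rfl
  · intro n
    rw [Finset.sum_range]
    simpa using hbL n
  · intro T hT
    filter_upwards [hbT T hT] with n hn hnA
    rw [Finset.sum_range]
    have h1 := hn hnA
    simp only [hRv, hQc] at h1
    simpa using h1

/-- **Large orbits** for the spaces of the question. -/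
theorem orbits_lit [CompleteSpace X] (hr : IsReflexive 𝕜 X) {m : ℕ → ℕ} {e : ℕ → ℕ → X}
    {c : ℕ → ℕ → X → 𝕜} (h : ANT.IsL1Decomposition m e c)
    (G : Subgroup (X ≃L[𝕜] X)) (K : ℝ) (hK : ∀ g ∈ G, ∀ x, ‖g x‖ ≤ K * ‖x‖)
    (horb : ∀ N : ℕ, ∃ n, ∃ i < m n,
      (∀ g ∈ G, ∃ j < m n, ∃ a : 𝕜, g (e n i) = a • e n j) ∧
      N ≤ {j : ℕ | j < m n ∧ ∃ g ∈ G, ∃ a : 𝕜, g (e n i) = a • e n j}.ncard) :
    ComplementedL1 𝕜 (X →L[𝕜] X) := by
  classical
  obtain ⟨M, Q, hM0, heM, hQb, hQc, hQe⟩ := coords h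
  let J : ∀ n, L1 𝕜 (m n) →L[𝕜] X := fun n =>
    ∑ i : Fin (m n), (PiLp.proj (𝕜 := 𝕜) 1 (fun _ : Fin (m n) => 𝕜) i).smulRight (e n i)
  have hJ : ∀ n v, J n v = ∑ i : Fin (m n), v i • e n i := by
    intro n v
    simp only [J, ContinuousLinearMap.sum_apply]
    rfl
  have hJb : ∀ n (i : Fin (m n)), J n (bv 𝕜 i) = e n i := by
    intro n i
    rw [hJ, Finset.sum_eq_single i]
    · rw [bv_same, one_smul]
    · intro j _ hj
      rw [bv_ne hj, zero_smul]
    · intro hi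
      exact absurd (Finset.mem_univ _) hi
  have hJn : ∀ n, ‖J n‖ ≤ M := by
    intro n
    refine ContinuousLinearMap.opNorm_le_bound _ hM0 (fun v => ?_)
    rw [hJ, PiLp.norm_eq_of_L1, Finset.mul_sum]
    refine (norm_sum_le _ _).trans (Finset.sum_le_sum (fun i _ => ?_))
    rw [norm_smul, mul_comm]
    exact mul_le_mul_of_nonneg_right (heM n i i.2) (norm_nonneg _)
  have hQn : ∀ n, ‖Q n‖ ≤ M := fun n =>
    ContinuousLinearMap.opNorm_le_bound _ hM0 (hQb n)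
  refine sym_main hr m J Q ?_ (M * M) ?_ G K hK ?_
  · intro n v
    ext k
    rw [hJ, map_sum]
    simp only [map_smul]
    have h1 : (∑ i : Fin (m n), v i • Q n (e n i)) k = ∑ i : Fin (m n), v i * (Q n (e n i)) k := by
      simp
    rw [h1, Finset.sum_eq_single k]
    · rw [hQe, if_pos ⟨rfl, rfl⟩, mul_one]
    · intro i _ hi
      rw [hQe, if_neg (fun h => hi (Fin.ext h.2).symm), mul_zero]
    · intro hk
      exact absurd (Finset.mem_univ _) hk
  · intro n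
    exact mul_le_mul (hQn n) (hJn n) (norm_nonneg _) hM0
  · intro N
    obtain ⟨n, i, hi, h1, h2⟩ := horb N
    refine ⟨n, ⟨i, hi⟩, ?_, ?_⟩
    · intro g hg
      obtain ⟨j, hj, a, ha⟩ := h1 g hg
      exact ⟨⟨j, hj⟩, a, by simp only [hJb]; exact ha⟩
    · have hfin : {j : ℕ | j < m n ∧ ∃ g ∈ G, ∃ a : 𝕜, g (e n i) = a • e n j}.Finite :=
        (Set.finite_lt_nat (m n)).subset (fun j hj => hj.1)
      refine ⟨Finset.univ.filter (fun j : Fin (m n) =>
        ∃ g ∈ G, ∃ a : 𝕜, g (e n i) = a • e n j), ?_, ?_⟩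
      · refine h2.trans ?_
        rw [Set.ncard_eq_toFinset_card _ hfin]
        refine Finset.card_le_card_of_injOn (f := fun j => if hj : j < m n then
          (⟨j, hj⟩ : Fin (m n)) else ⟨i, hi⟩) ?_ ?_
        · intro j hj
          have hj' := (Set.Finite.mem_toFinset hfin).1 hj
          simp only [Finset.coe_filter, Set.mem_ofPred_eq, Finset.mem_univ, true_and]
          rw [dif_pos hj'.1]
          exact hj'.2
        · intro j hj k hk hjk
          have hj' := (Set.Finite.mem_toFinset hfin).1 hj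
          have hk' := (Set.Finite.mem_toFinset hfin).1 hk
          simp only [dif_pos hj'.1, dif_pos hk'.1] at hjk
          exact congrArg Fin.val hjk
      · intro j hj
        obtain ⟨g, hg, a, ha⟩ := (Finset.mem_filter.1 hj).2
        exact ⟨g, hg, a, by simp only [hJb]; exact ha⟩

end Pool.Agent.DOMI
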