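import Mathlib

open Filter Topology

namespace Pool.Agent.DOMI

open scoped Pointwise

/-- B. H. Neumann: finitely many cosets of subgroups of large index do not cover the group; so one
can choose elements which are pairwise different modulo many subgroups at once. -/
theorem choose_elements {G : Type*} [Group G] (H : ℕ → Subgroup G)
    (hH : ∀ r, ((H r).index : ℚ)⁻¹ ≤ 1 / (((r : ℚ) + 1) * 2 ^ (r + 1))) (M K : ℕ) :
    ∃ g : ℕ → G, ∀ j k r, j < k → k < K → k ≤ r → r < M → (g j)⁻¹ * g k ∉ H r := by
  classical
  induction K with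
  | zero => exact ⟨fun _ => 1, fun j k r _ hk => absurd hk (Nat.not_lt_zero _)⟩
  | succ K ih =>
    obtain ⟨g, hg⟩ := ih
    -- the cosets to be avoided
    let s : Finset (ℕ × ℕ) := (Finset.range M).filter (fun r => K ≤ r) ×ˢ Finset.range K
    have hnot : ⋃ i ∈ s, (g i.2) • (H i.1 : Set G) ≠ Set.univ := by
      intro hc
      have h1 := Subgroup.one_le_sum_inv_index_of_leftCoset_cover (H := fun i : ℕ × ℕ => H i.1)
        (g := fun i => g i.2) (s := s) hc
      have h2 : ∑ i ∈ s, ((H i.1).index : ℚ)⁻¹ < 1 := by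
        rw [Finset.sum_product]
        have h3 : ∀ r ∈ (Finset.range M).filter (fun r => K ≤ r),
            ∑ _j ∈ Finset.range K, ((H r).index : ℚ)⁻¹ ≤ (1 / 2) * (1 / 2) ^ r := by
          intro r hr
          have hKr : K ≤ r := (Finset.mem_filter.1 hr).2
          rw [Finset.sum_const, Finset.card_range, nsmul_eq_mul]
          have hp : (0 : ℚ) < ((r : ℚ) + 1) * 2 ^ (r + 1) := by positivity
          calc (K : ℚ) * ((H r).index : ℚ)⁻¹
              ≤ ((r : ℚ) + 1) * (1 / (((r : ℚ) + 1) * 2 ^ (r + 1))) := by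
                refine mul_le_mul ?_ (hH r) (by positivity) (by positivity)
                have : (K : ℚ) ≤ r := by exact_mod_cast hKr
                linarith
            _ = (1 / 2) * (1 / 2) ^ r := by
                have h5 : ((r : ℚ) + 1) ≠ 0 := by positivity
                have h6 : (2 : ℚ) ^ r ≠ 0 := by positivity
                rw [pow_succ, div_pow, one_pow]
                field_simp
        refine (Finset.sum_le_sum h3).trans_lt ?_
        have h4 : ∑ r ∈ (Finset.range M).filter (fun r => K ≤ r), (1 / 2 : ℚ) * (1 / 2) ^ r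
            ≤ ∑ r ∈ Finset.range M, (1 / 2 : ℚ) * (1 / 2) ^ r :=
          Finset.sum_le_sum_of_subset_of_nonneg (Finset.filter_subset _ _)
            (fun _ _ _ => by positivity)
        refine h4.trans_lt ?_
        rw [← Finset.mul_sum, geom_sum_eq (by norm_num)]
        have h7 : (0 : ℚ) < (1 / 2) ^ M := by positivity
        have h8 : (1 / 2 : ℚ) * (((1 / 2) ^ M - 1) / (1 / 2 - 1)) = 1 - (1 / 2) ^ M := by
          field_simp
          ring
        rw [h8]
        linarith
      exact absurd h1 (not_le.2 h2)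
    obtain ⟨x, hx⟩ := (Set.ne_univ_iff_exists_notMem _).1 hnot
    have hx' : ∀ r j, K ≤ r → r < M → j < K → (g j)⁻¹ * x ∉ H r := by
      intro r j hKr hrM hj hmem
      refine hx ?_
      refine Set.mem_iUnion₂.2 ⟨(r, j), ?_, ?_⟩
      · simp only [s, Finset.mem_product, Finset.mem_filter, Finset.mem_range]
        exact ⟨⟨hrM, hKr⟩, hj⟩
      · exact Set.mem_smul_set.2 ⟨(g j)⁻¹ * x, hmem, by simp⟩
    refine ⟨Function.update g K x, fun j k r hjk hk hkr hr => ?_⟩
    have hjK : j ≠ K := by omega
    rw [Function.update_of_ne hjK]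
    by_cases hkK : k = K
    · subst hkK
      rw [Function.update_self]
      exact hx' r j hkr hr hjk
    · rw [Function.update_of_ne hkK]
      exact hg j k r hjk (by omega) hkr hr

/-- many left cosets give a large index (or an infinite one, when `index = 0`) -/
theorem inv_index_le {G : Type*} [Group G] (H : Subgroup G) (N : ℕ) (hN : 0 < N) {ι : Type*}
    (S : Finset ι) (hS : N ≤ S.card) (γ : ι → G)
    (hγ : ∀ i ∈ S, ∀ j ∈ S, (γ i)⁻¹ * γ j ∈ H → i = j) :
    ((H.index : ℚ))⁻¹ ≤ 1 / (N : ℚ) := by
  by_cases h0 : H.index = 0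
  · rw [h0]; simp
  have hfin : Finite (G ⧸ H) := Nat.finite_of_card_ne_zero h0
  have hle : S.card ≤ H.index := by
    have hinj : Function.Injective (fun i : S => (QuotientGroup.mk (γ i) : G ⧸ H)) := by
      intro i j hij
      exact Subtype.ext (hγ i i.2 j j.2 (QuotientGroup.eq.1 hij))
    have := Nat.card_le_card_of_injective _ hinj
    simpa [Subgroup.index] using this
  rw [one_div]
  refine inv_anti₀ (by exact_mod_cast hN) ?_
  exact_mod_cast hS.trans hle

end Pool.Agent.DOMI
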