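import Pool.Agent.DOMI.Sym
import Pool.Agent.DOMI.Dom
import Pool.Agent.ANT.Coord

open Filter Topology

namespace Pool.Agent.DOMI

variable {𝕜 : Type*} [RCLike 𝕜] {X : Type*} [NormedAddCommGroup X] [NormedSpace 𝕜 X]

/-- the data extracted from a decomposition -/
theorem coords [CompleteSpace X] {m : ℕ → ℕ} {e : ℕ → ℕ → X} {c : ℕ → ℕ → X → 𝕜}
    (h : ANT.IsL1Decomposition m e c) :
    ∃ (M : ℝ) (Q : ∀ n, X →L[𝕜] L1 𝕜 (m n)), 0 ≤ M ∧ (∀ n, ∀ i < m n, ‖e n i‖ ≤ M) ∧
      (∀ n x, ‖Q n x‖ ≤ M * ‖x‖) ∧ (∀ n x (i : Fin (m n)), Q n x i = c n i x) ∧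
      ∀ n k (i : Fin (m n)) (j : Fin (m k)),
        Q n (e k j) i = if n = k ∧ (i : ℕ) = (j : ℕ) then 1 else 0 := by
  classical
  obtain ⟨M, hM, C, hC, hCM⟩ := ANT.coord h
  obtain ⟨hsum, huniq, -⟩ := h
  let Q : ∀ n, X →L[𝕜] L1 𝕜 (m n) := fun n =>
    ((PiLp.continuousLinearEquiv 1 𝕜 (fun _ : Fin (m n) => 𝕜)).symm :
      (∀ _ : Fin (m n), 𝕜) →L[𝕜] L1 𝕜 (m n)).comp
      (ContinuousLinearMap.pi (fun i : Fin (m n) => C n i))
  have hQ : ∀ n x (i : Fin (m n)), Q n x i = C n i x := fun n x i => rfl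
  refine ⟨max M 0, Q, le_max_right _ _, fun n i hi => (hM n i hi).trans (le_max_left _ _),
    ?_, ?_, ?_⟩
  · intro n x
    rw [PiLp.norm_eq_of_L1]
    have h1 := hCM n x
    rw [Finset.sum_range (fun i => ‖C n i x‖)] at h1
    simp only [hQ]
    exact h1.trans (mul_le_mul_of_nonneg_right (le_max_left _ _) (norm_nonneg _))
  · intro n x i
    rw [hQ, hC n i i.2]
  · intro n k i j
    rw [hQ, hC n i i.2]
    -- uniqueness of the expansion of `e k j`
    let a : ℕ → ℕ → 𝕜 := fun n' i' => c n' i' (e k j) - (if n' = k ∧ i' = (j : ℕ) then 1 else 0)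
    have hδ : ∀ n', ∑ i' ∈ Finset.range (m n'),
        (if n' = k ∧ i' = (j : ℕ) then (1 : 𝕜) else 0) • e n' i' = if n' = k then e k j else 0 := by
      intro n'
      by_cases hn : n' = k
      · subst hn
        simp only [true_and, ite_smul, one_smul, zero_smul, if_true]
        rw [Finset.sum_ite_eq' (Finset.range (m n')) (j : ℕ) (fun i' => e n' i')]
        rw [if_pos (Finset.mem_range.2 j.2)]
      · simp [hn]
    have h2 : HasSum (fun n' => if n' = k then e k j else 0) (e k j) := by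
      have := hasSum_ite_eq k (e k j)
      exact this
    have h3 := (hsum (e k j)).sub h2
    rw [sub_self] at h3
    have h4 := h3.tendsto_sum_nat
    have h5 := huniq a (by
      refine h4.congr (fun N => ?_)
      refine Finset.sum_congr rfl (fun n' _ => ?_)
      simp only [a, sub_smul, Finset.sum_sub_distrib]
      rw [hδ]) n i i.2
    exact sub_eq_zero.1 h5

end Pool.Agent.DOMI
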