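import Pool.Agent.DOMI.Final

/-!
# Moving one bounded sequence to different places
-/

set_option autoImplicit false

open Filter Topology

namespace Pool.Agent.DOMI

variable {𝕜 : Type} [RCLike 𝕜] {X : Type} [NormedAddCommGroup X] [NormedSpace 𝕜 X]

/-- If the operators `S r` move one bounded sequence `x n` to pairwise different places `p n r` of
the blocks, then `B(X)` contains a complemented copy of `ℓ_1`. -/
theorem moves_lit [CompleteSpace X] {m : ℕ → ℕ} {e : ℕ → ℕ → X}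
    {c : ℕ → ℕ → X → 𝕜} (h : ANT.IsL1Decomposition m e c)
    (x : ℕ → X) (M : ℝ) (hx : ∀ n, ‖x n‖ ≤ M) (S : ℕ → X →L[𝕜] X) (K : ℝ)
    (hS : ∀ r, ‖S r‖ ≤ K) (A : Set ℕ) (hA : A.Infinite) (p : ℕ → ℕ → ℕ) (ε : ℝ) (hε : 0 < ε)
    (hbig : ∀ r, ∀ᶠ n in atTop, n ∈ A → p n r < m n ∧ ε ≤ ‖c n (p n r) (S r (x n))‖)
    (hne : ∀ r s, r ≠ s → ∀ᶠ n in atTop, n ∈ A → p n r ≠ p n s) :
    ComplementedL1 𝕜 (X →L[𝕜] X) := by
  classical
  by_contra hcon
  obtain ⟨A', hA', hA'i, L, b, hb0, hbL, hT⟩ :=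
    domination_lit h hcon x M hx K (ε / 2) (half_pos hε) A hA
  obtain ⟨R, hR⟩ := exists_nat_gt (L / (ε / 2))
  rw [div_lt_iff₀ (half_pos hε)] at hR
  have h1 : ∀ᶠ n in atTop, ∀ r ∈ Finset.range R, n ∈ A →
      p n r < m n ∧ ε ≤ ‖c n (p n r) (S r (x n))‖ :=
    (Filter.eventually_all_finset _).2 (fun r _ => hbig r)
  have h2 : ∀ᶠ n in atTop, ∀ r ∈ Finset.range R, n ∈ A' →
      ∑ i ∈ Finset.range (m n), max (‖c n i (S r (x n))‖ - b n i) 0 ≤ ε / 2 :=
    (Filter.eventually_all_finset _).2 (fun r _ => hT (S r) (hS r))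
  have h3 : ∀ᶠ n in atTop, ∀ r ∈ Finset.range R, ∀ s ∈ Finset.range R, r ≠ s → n ∈ A →
      p n r ≠ p n s := by
    refine (Filter.eventually_all_finset _).2 (fun r _ =>
      (Filter.eventually_all_finset _).2 (fun s _ => ?_))
    by_cases hrs : r = s
    · exact Filter.Eventually.of_forall (fun n hn => absurd hrs hn)
    · exact (hne r s hrs).mono (fun n hn _ hnA => hn hnA)
  obtain ⟨n, ⟨⟨h1n, h2n⟩, h3n⟩, hnA'⟩ :=
    ((h1.and h2).and h3).and_frequently (Nat.frequently_atTop_iff_infinite.2 hA'i) |>.exists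
  have hnA : n ∈ A := hA' hnA'
  have h4 : ∀ r ∈ Finset.range R, ε / 2 ≤ b n (p n r) := by
    intro r hr
    obtain ⟨h5, h6⟩ := h1n r hr hnA
    have h7 := h2n r hr hnA'
    have h8 : max (‖c n (p n r) (S r (x n))‖ - b n (p n r)) 0 ≤
        ∑ i ∈ Finset.range (m n), max (‖c n i (S r (x n))‖ - b n i) 0 :=
      Finset.single_le_sum (f := fun i => max (‖c n i (S r (x n))‖ - b n i) 0)
        (fun _ _ => le_max_right _ _) (Finset.mem_range.2 h5)
    have h9 := le_max_left (‖c n (p n r) (S r (x n))‖ - b n (p n r)) 0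
    linarith
  have h5 : ∑ r ∈ Finset.range R, b n (p n r) ≤ ∑ i ∈ Finset.range (m n), b n i := by
    rw [← Finset.sum_image (f := fun i => b n i) (g := fun r => p n r)]
    · refine Finset.sum_le_sum_of_subset_of_nonneg ?_ (fun _ _ _ => hb0 _ _)
      intro i hi
      obtain ⟨r, hr, rfl⟩ := Finset.mem_image.1 hi
      exact Finset.mem_range.2 (h1n r hr hnA).1
    · intro r hr s hs hrs
      by_contra hne'
      exact h3n r hr s hs hne' hnA hrs
  have h6 : ∑ _r ∈ Finset.range R, ε / 2 ≤ ∑ r ∈ Finset.range R, b n (p n r) :=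
    Finset.sum_le_sum h4
  rw [Finset.sum_const, Finset.card_range, nsmul_eq_mul] at h6
  have h7 := hbL n
  linarith

end Pool.Agent.DOMI
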