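import Pool.Agent.DOMI.Final

/-!
# Orbits of bounded groups are uniformly almost order bounded
-/

set_option autoImplicit false

open Filter Topology

namespace Pool.Agent.DOMI

variable {𝕜 : Type} [RCLike 𝕜] {X : Type} [NormedAddCommGroup X] [NormedSpace 𝕜 X]

/-- the mass of the part of `|a|` above `b` -/
noncomputable def exc (s : Finset ℕ) (a : ℕ → 𝕜) (b : ℕ → ℝ) : ℝ :=
  ∑ i ∈ s, max (‖a i‖ - b i) 0

theorem exc_le (s : Finset ℕ) (a a' : ℕ → 𝕜) (b : ℕ → ℝ) :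
    exc s a b ≤ exc s a' b + ∑ i ∈ s, ‖a i - a' i‖ := by
  unfold exc
  rw [← Finset.sum_add_distrib]
  refine Finset.sum_le_sum (fun i _ => ?_)
  refine max_le ?_ (add_nonneg (le_max_right _ _) (norm_nonneg _))
  have h1 := norm_sub_norm_le (a i) (a' i)
  have h2 := le_max_left (‖a' i‖ - b i) 0
  linarith

/-- The category argument. -/
theorem baire (hr : IsReflexive 𝕜 X) (m : ℕ → ℕ) (M : ℝ) (hM0 : 0 ≤ M) (C : ℕ → ℕ → X →L[𝕜] 𝕜)
    (hC : ∀ n x, ∑ i ∈ Finset.range (m n), ‖C n i x‖ ≤ M * ‖x‖)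
    (G : Subgroup (X ≃L[𝕜] X)) (K : ℝ) (hK0 : 0 ≤ K) (hK : ∀ g ∈ G, ∀ x, ‖g x‖ ≤ K * ‖x‖)
    (x : ℕ → X) (b : ℕ → ℕ → ℝ) (A : Set ℕ) (ε : ℝ) (hε : 0 < ε)
    (hT : ∀ T : X →L[𝕜] X, ‖T‖ ≤ K → ∀ᶠ k in atTop, k ∈ A →
      exc (Finset.range (m k)) (fun i => C k i (T (x k))) (b k) ≤ ε) :
    ∃ g₀ ∈ G, ∃ (p : ℕ) (η : ℝ), 0 < η ∧ ∀ g ∈ G, (∀ k < p, ‖g (x k) - g₀ (x k)‖ ≤ η) →
      ∀ k ∈ A, p ≤ k → exc (Finset.range (m k)) (fun i => C k i (g (x k))) (b k) ≤ 2 * ε := by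
  classical
  by_contra hcon
  have hcon' : ∀ g₀ ∈ G, ∀ (p : ℕ) (η : ℝ), 0 < η → ∃ g ∈ G,
      (∀ k < p, ‖g (x k) - g₀ (x k)‖ ≤ η) ∧ ∃ k ∈ A, p ≤ k ∧
        2 * ε < exc (Finset.range (m k)) (fun i => C k i (g (x k))) (b k) := by
    intro g₀ hg₀ p η hη
    by_contra hno
    refine hcon ⟨g₀, hg₀, p, η, hη, fun g hg hclose k hk hpk => ?_⟩
    by_contra hlt
    exact hno ⟨g, hg, hclose, k, hk, hpk, not_le.1 hlt⟩
  let η : ℕ → ℝ := fun j => ε / 2 * (1 / 2) ^ (j + 1) / (M + 1)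
  have hη : ∀ j, 0 < η j := fun j => by
    have : 0 < M + 1 := by linarith
    positivity
  have hMη : ∀ j, M * η j ≤ ε / 2 * (1 / 2) ^ (j + 1) := by
    intro j
    have h1 : 0 < M + 1 := by linarith
    have h2 : (M + 1) * η j = ε / 2 * (1 / 2) ^ (j + 1) := by
      simp only [η]
      field_simp
    have h3 := (hη j).le
    nlinarith
  have step : ∀ (j : ℕ) (s : {s : (X ≃L[𝕜] X) × ℕ // s.1 ∈ G}),
      ∃ (s' : {s : (X ≃L[𝕜] X) × ℕ // s.1 ∈ G}) (k : ℕ), s'.1.2 = k + 1 ∧ k ∈ A ∧ s.1.2 ≤ k ∧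
        (∀ i < s.1.2, ‖s'.1.1 (x i) - s.1.1 (x i)‖ ≤ η j) ∧
        2 * ε < exc (Finset.range (m k)) (fun i => C k i (s'.1.1 (x k))) (b k) := by
    rintro j ⟨⟨g, p⟩, hg⟩
    obtain ⟨g', hg', hclose, k, hk, hpk, hbig⟩ := hcon' g hg p (η j) (hη j)
    exact ⟨⟨(g', k + 1), hg'⟩, k, rfl, hk, hpk, hclose, hbig⟩
  choose nx kk h1 h2 h3 h4 h5 using step
  let f : ℕ → {s : (X ≃L[𝕜] X) × ℕ // s.1 ∈ G} := fun j =>
    Nat.rec ⟨(1, 0), G.one_mem⟩ (fun j s => nx j s) j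
  have hf : ∀ j, f (j + 1) = nx j (f j) := fun j => rfl
  let g : ℕ → (X ≃L[𝕜] X) := fun j => (f j).1.1
  let p : ℕ → ℕ := fun j => (f j).1.2
  let κ : ℕ → ℕ := fun j => kk j (f j)
  have hg : ∀ j, g j ∈ G := fun j => (f j).2
  have hp : ∀ j, p (j + 1) = κ j + 1 := fun j => by
    change (f (j + 1)).1.2 = _
    rw [hf]; exact h1 j (f j)
  have hκA : ∀ j, κ j ∈ A := fun j => h2 j (f j)
  have hpκ : ∀ j, p j ≤ κ j := fun j => h3 j (f j)
  have hclose : ∀ j, ∀ i < p j, ‖g (j + 1) (x i) - g j (x i)‖ ≤ η j := by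
    intro j i hi
    have h := h4 j (f j) i hi
    rw [← hf] at h
    exact h
  have hbig : ∀ j, 2 * ε < exc (Finset.range (m (κ j)))
      (fun i => C (κ j) i (g (j + 1) (x (κ j)))) (b (κ j)) := by
    intro j
    have h := h5 j (f j)
    rw [← hf] at h
    exact h
  have hpm : Monotone p := monotone_nat_of_le_succ (fun j => by
    rw [hp]; exact (hpκ j).trans (Nat.le_succ _))
  have hκm : StrictMono κ := strictMono_nat_of_lt_succ (fun j => by
    have h := hpκ (j + 1)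
    rw [hp] at h
    exact h)
  have hkeep : ∀ i j, i + 1 ≤ j → 2 * ε - ε / 2 * (1 - (1 / 2) ^ j) <
      exc (Finset.range (m (κ i))) (fun l => C (κ i) l (g j (x (κ i)))) (b (κ i)) := by
    intro i j hij
    induction j, hij using Nat.le_induction with
    | base =>
      have h6 := hbig i
      have h7 : (0 : ℝ) ≤ ε / 2 * (1 - (1 / 2) ^ (i + 1)) := by
        have : (1 / 2 : ℝ) ^ (i + 1) ≤ 1 := pow_le_one₀ (by norm_num) (by norm_num)
        have h8 : 0 ≤ 1 - (1 / 2 : ℝ) ^ (i + 1) := by linarith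
        positivity
      linarith
    | succ j hij ih =>
      have h6 := exc_le (Finset.range (m (κ i))) (fun l => C (κ i) l (g j (x (κ i))))
        (fun l => C (κ i) l (g (j + 1) (x (κ i)))) (b (κ i))
      have h7 : ∑ l ∈ Finset.range (m (κ i)), ‖C (κ i) l (g j (x (κ i))) -
          C (κ i) l (g (j + 1) (x (κ i)))‖ ≤ M * η j := by
        have h8 : κ i < p j := by
          have h9 := hpm hij
          rw [hp] at h9
          omega
        have h10 := hclose j (κ i) h8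
        have h11 := hC (κ i) (g j (x (κ i)) - g (j + 1) (x (κ i)))
        simp only [map_sub] at h11
        rw [norm_sub_rev] at h10
        exact h11.trans (mul_le_mul_of_nonneg_left h10 hM0)
      have h8 := hMη j
      have h9 : (1 / 2 : ℝ) ^ (j + 1) = (1 / 2) ^ j / 2 := by rw [pow_succ]; ring
      rw [h9] at h8 ⊢
      have h10 : (0 : ℝ) < (1 / 2) ^ j := by positivity
      nlinarith
  obtain ⟨T, hTb, hTl⟩ := wot_limit hr (hyperfilter ℕ) (fun j => (g j : X →L[𝕜] X)) K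
    (fun j x => hK (g j) (hg j) x)
  have hTn : ‖T‖ ≤ K := ContinuousLinearMap.opNorm_le_bound _ hK0 hTb
  have hTbig : ∀ i, 3 / 2 * ε ≤
      exc (Finset.range (m (κ i))) (fun l => C (κ i) l (T (x (κ i)))) (b (κ i)) := by
    intro i
    have h6 : Tendsto (fun j => exc (Finset.range (m (κ i)))
        (fun l => C (κ i) l (g j (x (κ i)))) (b (κ i))) (hyperfilter ℕ : Filter ℕ)
        (𝓝 (exc (Finset.range (m (κ i))) (fun l => C (κ i) l (T (x (κ i)))) (b (κ i)))) := by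
      unfold exc
      refine tendsto_finsetSum _ (fun l _ => ?_)
      exact (((hTl (x (κ i)) (C (κ i) l)).norm).sub_const _).max tendsto_const_nhds
    refine ge_of_tendsto h6 ?_
    have h7 : ∀ᶠ j in (hyperfilter ℕ : Filter ℕ), i + 1 ≤ j :=
      Nat.hyperfilter_le_atTop (eventually_ge_atTop (i + 1))
    filter_upwards [h7] with j hj
    have h8 := hkeep i j hj
    have h9 : (0 : ℝ) < (1 / 2) ^ j := by positivity
    nlinarith
  obtain ⟨N, hN⟩ := eventually_atTop.1 (hT T hTn)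
  have h6 := hN (κ N) (hκm.id_le N) (hκA N)
  have h7 := hTbig N
  linarith

/-- Finitely many elements of the group approximate all others on finitely many vectors. -/
theorem net (m : ℕ → ℕ) (M : ℝ) (hM0 : 0 ≤ M) (C : ℕ → ℕ → X →L[𝕜] 𝕜)
    (hC : ∀ n x, ∑ i ∈ Finset.range (m n), ‖C n i x‖ ≤ M * ‖x‖) (e : ℕ → ℕ → X)
    (he : ∀ n, ∀ i < m n, ‖e n i‖ ≤ M)
    (G : Subgroup (X ≃L[𝕜] X)) (K : ℝ) (hK0 : 0 ≤ K) (hK : ∀ g ∈ G, ∀ x, ‖g x‖ ≤ K * ‖x‖)
    (x : ℕ → X) (hx : ∀ k, ‖x k‖ ≤ 1)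
    (hinv : ∀ k, ∀ g ∈ G, g (x k) = ∑ i ∈ Finset.range (m k), C k i (g (x k)) • e k i)
    (p : ℕ) (η : ℝ) (hη : 0 < η) :
    ∃ s : Finset (X ≃L[𝕜] X), (∀ t ∈ s, t ∈ G) ∧
      ∀ g ∈ G, ∃ t ∈ s, ∀ k < p, ‖g (x k) - t (x k)‖ ≤ η := by
  classical
  let Φ : (X ≃L[𝕜] X) → ((k : Fin p) → (Fin (m k) → 𝕜)) := fun g k i => C k i (g (x k))
  set R : ℝ := ∑ k ∈ Finset.range p, (m k : ℝ) * M + 1 with hR
  have hR0 : 0 < R := by
    have : 0 ≤ ∑ k ∈ Finset.range p, (m k : ℝ) * M :=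
      Finset.sum_nonneg (fun k _ => mul_nonneg (Nat.cast_nonneg _) hM0)
    linarith
  have hRk : ∀ k < p, (m k : ℝ) * M ≤ R := by
    intro k hk
    have : (m k : ℝ) * M ≤ ∑ k ∈ Finset.range p, (m k : ℝ) * M :=
      Finset.single_le_sum (f := fun k => (m k : ℝ) * M)
        (fun k _ => mul_nonneg (Nat.cast_nonneg _) hM0) (Finset.mem_range.2 hk)
    linarith
  have hbd : Φ '' (G : Set (X ≃L[𝕜] X)) ⊆
      Metric.closedBall (0 : (k : Fin p) → (Fin (m k) → 𝕜)) (M * K) := by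
    rintro _ ⟨g, hg, rfl⟩
    rw [mem_closedBall_zero_iff]
    refine (pi_norm_le_iff_of_nonneg (mul_nonneg hM0 hK0)).2 (fun k => ?_)
    refine (pi_norm_le_iff_of_nonneg (mul_nonneg hM0 hK0)).2 (fun i => ?_)
    have h1 : ‖C k i (g (x k))‖ ≤ ∑ i ∈ Finset.range (m k), ‖C k i (g (x k))‖ :=
      Finset.single_le_sum (f := fun i => ‖C k i (g (x k))‖) (fun _ _ => norm_nonneg _)
        (Finset.mem_range.2 i.2)
    refine h1.trans ((hC k _).trans ?_)
    refine mul_le_mul_of_nonneg_left ?_ hM0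
    refine (hK g hg _).trans ?_
    calc K * ‖x k‖ ≤ K * 1 := mul_le_mul_of_nonneg_left (hx k) hK0
      _ = K := mul_one K
  have htb : TotallyBounded (Φ '' (G : Set (X ≃L[𝕜] X))) :=
    (isCompact_closedBall (0 : (k : Fin p) → (Fin (m k) → 𝕜)) (M * K)).totallyBounded.subset hbd
  obtain ⟨t, hts, htf, htc⟩ := Metric.finite_approx_of_totallyBounded htb (η / R)
    (div_pos hη hR0)
  have hγ : ∀ y : (k : Fin p) → (Fin (m k) → 𝕜), ∃ g : X ≃L[𝕜] X, y ∈ t → g ∈ G ∧ Φ g = y := by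
    intro y
    by_cases hy : y ∈ t
    · obtain ⟨g, hg, hgy⟩ := hts hy
      exact ⟨g, fun _ => ⟨hg, hgy⟩⟩
    · exact ⟨1, fun h => absurd h hy⟩
  choose γ hγ using hγ
  refine ⟨htf.toFinset.image γ, ?_, ?_⟩
  · intro g hg
    obtain ⟨y, hy, rfl⟩ := Finset.mem_image.1 hg
    exact (hγ y (htf.mem_toFinset.1 hy)).1
  · intro g hg
    obtain ⟨y, hy, hgy⟩ := Set.mem_iUnion₂.1 (htc (Set.mem_image_of_mem Φ hg))
    obtain ⟨hγG, hγy⟩ := hγ y hy
    refine ⟨γ y, Finset.mem_image.2 ⟨y, htf.mem_toFinset.2 hy, rfl⟩, fun k hk => ?_⟩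
    have h1 : dist (Φ g) (Φ (γ y)) ≤ η / R := by
      rw [hγy]
      exact (Metric.mem_ball.1 hgy).le
    have h2 : ∀ i < m k, ‖C k i (g (x k)) - C k i (γ y (x k))‖ ≤ η / R := by
      intro i hi
      have h3 := (dist_pi_le_iff (div_pos hη hR0).le).1 h1 ⟨k, hk⟩
      have h4 := (dist_pi_le_iff (div_pos hη hR0).le).1 h3 ⟨i, hi⟩
      rw [dist_eq_norm] at h4
      exact h4
    have h3 : g (x k) - γ y (x k) = ∑ i ∈ Finset.range (m k),
        (C k i (g (x k)) - C k i (γ y (x k))) • e k i := by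
      conv_lhs => rw [hinv k g hg, hinv k (γ y) hγG]
      rw [← Finset.sum_sub_distrib]
      exact Finset.sum_congr rfl (fun i _ => by rw [sub_smul])
    rw [h3]
    calc ‖∑ i ∈ Finset.range (m k), (C k i (g (x k)) - C k i (γ y (x k))) • e k i‖
        ≤ ∑ i ∈ Finset.range (m k), η / R * M := by
          refine (norm_sum_le _ _).trans (Finset.sum_le_sum (fun i hi => ?_))
          rw [norm_smul]
          exact mul_le_mul (h2 i (Finset.mem_range.1 hi)) (he k i (Finset.mem_range.1 hi))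
            (norm_nonneg _) (div_pos hη hR0).le
      _ = η / R * ((m k : ℝ) * M) := by
          rw [Finset.sum_const, Finset.card_range, nsmul_eq_mul]; ring
      _ ≤ η / R * R := mul_le_mul_of_nonneg_left (hRk k hk) (div_pos hη hR0).le
      _ = η := by field_simp

/-- One element moves dominated vectors to dominated vectors. -/
theorem exc_move (m : ℕ → ℕ) (M : ℝ) (hM0 : 0 ≤ M) (C : ℕ → ℕ → X →L[𝕜] 𝕜)
    (hC : ∀ n x, ∑ i ∈ Finset.range (m n), ‖C n i x‖ ≤ M * ‖x‖) (e : ℕ → ℕ → X)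
    (he : ∀ n, ∀ i < m n, ‖e n i‖ ≤ M) (K : ℝ) (hK0 : 0 ≤ K) (k : ℕ) (y : X)
    (hy : y = ∑ i ∈ Finset.range (m k), C k i y • e k i) (b b' : ℕ → ℝ)
    (t : X →L[𝕜] X) (ht : ∀ x, ‖t x‖ ≤ K * ‖x‖)
    (hb' : ∀ i, ∑ l ∈ Finset.range (m k), b l * ‖C k i (t (e k l))‖ ≤ b' i) :
    exc (Finset.range (m k)) (fun i => C k i (t y)) b' ≤
      M * K * M * exc (Finset.range (m k)) (fun i => C k i y) b := by
  have h1 : ∀ i, C k i (t y) = ∑ l ∈ Finset.range (m k), C k l y * C k i (t (e k l)) := by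
    intro i
    conv_lhs => rw [hy]
    rw [map_sum, map_sum]
    refine Finset.sum_congr rfl (fun l _ => ?_)
    rw [map_smul, map_smul, smul_eq_mul]
  have h2 : ∀ i ∈ Finset.range (m k), max (‖C k i (t y)‖ - b' i) 0 ≤
      ∑ l ∈ Finset.range (m k), max (‖C k l y‖ - b l) 0 * ‖C k i (t (e k l))‖ := by
    intro i _
    refine max_le ?_ (Finset.sum_nonneg (fun l _ =>
      mul_nonneg (le_max_right _ _) (norm_nonneg _)))
    have h3 : ‖C k i (t y)‖ ≤ ∑ l ∈ Finset.range (m k), ‖C k l y‖ * ‖C k i (t (e k l))‖ := by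
      rw [h1 i]
      refine (norm_sum_le _ _).trans (Finset.sum_le_sum (fun l _ => ?_))
      rw [norm_mul]
    have h4 : ∑ l ∈ Finset.range (m k), ‖C k l y‖ * ‖C k i (t (e k l))‖ ≤
        ∑ l ∈ Finset.range (m k), max (‖C k l y‖ - b l) 0 * ‖C k i (t (e k l))‖ +
        ∑ l ∈ Finset.range (m k), b l * ‖C k i (t (e k l))‖ := by
      rw [← Finset.sum_add_distrib]
      refine Finset.sum_le_sum (fun l _ => ?_)
      rw [← add_mul]
      refine mul_le_mul_of_nonneg_right ?_ (norm_nonneg _)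
      have := le_max_left (‖C k l y‖ - b l) 0
      linarith
    have h5 := hb' i
    linarith
  unfold exc
  refine (Finset.sum_le_sum h2).trans ?_
  rw [Finset.sum_comm, Finset.mul_sum]
  refine Finset.sum_le_sum (fun l hl => ?_)
  rw [← Finset.mul_sum, mul_comm]
  refine mul_le_mul_of_nonneg_right ?_ (le_max_right _ _)
  refine (hC k _).trans ?_
  have h3 := (ht (e k l)).trans (mul_le_mul_of_nonneg_left (he k l (Finset.mem_range.1 hl)) hK0)
  calc M * ‖t (e k l)‖ ≤ M * (K * M) := mul_le_mul_of_nonneg_left h3 hM0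
    _ = M * K * M := by ring

theorem seq_dom (hr : IsReflexive 𝕜 X) (m : ℕ → ℕ) (M : ℝ) (hM0 : 0 ≤ M)
    (C : ℕ → ℕ → X →L[𝕜] 𝕜)
    (hC : ∀ n x, ∑ i ∈ Finset.range (m n), ‖C n i x‖ ≤ M * ‖x‖) (e : ℕ → ℕ → X)
    (he : ∀ n, ∀ i < m n, ‖e n i‖ ≤ M)
    (G : Subgroup (X ≃L[𝕜] X)) (K : ℝ) (hK0 : 0 ≤ K) (hK : ∀ g ∈ G, ∀ x, ‖g x‖ ≤ K * ‖x‖)
    (x : ℕ → X) (hx : ∀ k, ‖x k‖ ≤ 1)
    (hinv : ∀ k, ∀ g ∈ G, g (x k) = ∑ i ∈ Finset.range (m k), C k i (g (x k)) • e k i)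
    (b : ℕ → ℕ → ℝ) (hb0 : ∀ k i, 0 ≤ b k i) (L : ℝ)
    (hbL : ∀ k, ∑ i ∈ Finset.range (m k), b k i ≤ L) (A : Set ℕ) (ε : ℝ) (hε : 0 < ε)
    (hT : ∀ T : X →L[𝕜] X, ‖T‖ ≤ K → ∀ᶠ k in atTop, k ∈ A →
      exc (Finset.range (m k)) (fun i => C k i (T (x k))) (b k) ≤ ε) :
    ∃ (J p : ℕ) (b' : ℕ → ℕ → ℝ), (∀ k i, 0 ≤ b' k i) ∧
      (∀ k, ∑ i ∈ Finset.range (m k), b' k i ≤ J * (M * K * M * L)) ∧
      ∀ k ∈ A, p ≤ k → ∀ g ∈ G,
        exc (Finset.range (m k)) (fun i => C k i (g (x k))) (b' k) ≤ M * K * M * (2 * ε) := by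
  classical
  obtain ⟨g₀, hg₀, p, η, hη, hB⟩ := baire hr m M hM0 C hC G K hK0 hK x b A ε hε hT
  have hK1 : 0 < K * K + 1 := by nlinarith
  obtain ⟨s, hs, hcov⟩ := net m M hM0 C hC e he G K hK0 hK x hx hinv p (η / (K * K + 1))
    (div_pos hη hK1)
  have hMKM : 0 ≤ M * K * M := by positivity
  refine ⟨s.card, p, fun k i => ∑ t ∈ s, ∑ l ∈ Finset.range (m k),
    b k l * ‖C k i ((t * g₀⁻¹) (e k l))‖, ?_, ?_, ?_⟩
  · intro k i
    exact Finset.sum_nonneg (fun t _ => Finset.sum_nonneg (fun l _ =>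
      mul_nonneg (hb0 k l) (norm_nonneg _)))
  · intro k
    rw [Finset.sum_comm]
    have h1 : ∀ t ∈ s, ∑ i ∈ Finset.range (m k), ∑ l ∈ Finset.range (m k),
        b k l * ‖C k i ((t * g₀⁻¹) (e k l))‖ ≤ M * K * M * L := by
      intro t ht
      rw [Finset.sum_comm]
      have h2 : ∀ l ∈ Finset.range (m k), ∑ i ∈ Finset.range (m k),
          b k l * ‖C k i ((t * g₀⁻¹) (e k l))‖ ≤ b k l * (M * K * M) := by
        intro l hl
        rw [← Finset.mul_sum]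
        refine mul_le_mul_of_nonneg_left ?_ (hb0 k l)
        refine (hC k _).trans ?_
        have h3 := (hK (t * g₀⁻¹) (G.mul_mem (hs t ht) (G.inv_mem hg₀)) (e k l)).trans
          (mul_le_mul_of_nonneg_left (he k l (Finset.mem_range.1 hl)) hK0)
        calc M * ‖(t * g₀⁻¹) (e k l)‖ ≤ M * (K * M) := mul_le_mul_of_nonneg_left h3 hM0
          _ = M * K * M := by ring
      refine (Finset.sum_le_sum h2).trans ?_
      rw [← Finset.sum_mul, mul_comm]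
      exact mul_le_mul_of_nonneg_left (hbL k) hMKM
    refine (Finset.sum_le_sum h1).trans ?_
    rw [Finset.sum_const, nsmul_eq_mul]
  · intro k hk hpk g hg
    obtain ⟨t, hts, htc⟩ := hcov g hg
    have htG := hs t hts
    set u : X ≃L[𝕜] X := g₀ * (t⁻¹ * g) with hu
    have huG : u ∈ G := G.mul_mem hg₀ (G.mul_mem (G.inv_mem htG) hg)
    have hclose : ∀ j < p, ‖u (x j) - g₀ (x j)‖ ≤ η := by
      intro j hj
      have h1 : g₀ (x j) = g₀ (t⁻¹ (t (x j))) := by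
        congr 1
        exact (t.symm_apply_apply (x j)).symm
      have h2 : u (x j) - g₀ (x j) = g₀ (t⁻¹ (g (x j) - t (x j))) := by
        rw [map_sub, map_sub, ← h1]
        rfl
      rw [h2]
      refine (hK g₀ hg₀ _).trans ?_
      have h3 := (hK t⁻¹ (G.inv_mem htG) (g (x j) - t (x j))).trans
        (mul_le_mul_of_nonneg_left (htc j hj) hK0)
      calc K * ‖t⁻¹ (g (x j) - t (x j))‖ ≤ K * (K * (η / (K * K + 1))) :=
            mul_le_mul_of_nonneg_left h3 hK0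
        _ = K * K / (K * K + 1) * η := by ring
        _ ≤ 1 * η := by
            refine mul_le_mul_of_nonneg_right ?_ hη.le
            rw [div_le_one hK1]
            linarith
        _ = η := one_mul η
    have hexc := hB u huG hclose k hk hpk
    have hgu : g (x k) = ((t * g₀⁻¹ : X ≃L[𝕜] X) : X →L[𝕜] X) (u (x k)) := by
      have h1 : (t * g₀⁻¹) * u = g := by rw [hu]; group
      conv_lhs => rw [← h1]
      rfl
    have hmove := exc_move m M hM0 C hC e he K hK0 k (u (x k)) (hinv k u huG) (b k)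
      (fun i => ∑ t ∈ s, ∑ l ∈ Finset.range (m k), b k l * ‖C k i ((t * g₀⁻¹) (e k l))‖)
      ((t * g₀⁻¹ : X ≃L[𝕜] X) : X →L[𝕜] X)
      (fun y => hK (t * g₀⁻¹) (G.mul_mem htG (G.inv_mem hg₀)) y) (fun i => by
        exact Finset.single_le_sum (f := fun t => ∑ l ∈ Finset.range (m k),
          b k l * ‖C k i ((t * g₀⁻¹) (e k l))‖) (fun t _ => Finset.sum_nonneg (fun l _ =>
          mul_nonneg (hb0 k l) (norm_nonneg _))) hts)
    rw [hgu]
    exact hmove.trans (mul_le_mul_of_nonneg_left hexc hMKM)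

/-- **Orbits of bounded groups are uniformly almost order bounded.** -/
theorem orbit_dom [CompleteSpace X] (hr : IsReflexive 𝕜 X) {m : ℕ → ℕ} {e : ℕ → ℕ → X}
    {c : ℕ → ℕ → X → 𝕜} (h : ANT.IsL1Decomposition m e c)
    (hE : ¬ ComplementedL1 𝕜 (X →L[𝕜] X))
    (G : Subgroup (X ≃L[𝕜] X)) (K : ℝ) (hK : ∀ g ∈ G, ∀ x, ‖g x‖ ≤ K * ‖x‖)
    (ε : ℝ) (hε : 0 < ε) :
    ∃ L : ℝ, ∀ (n : ℕ) (x : X), ‖x‖ ≤ 1 →
      (∀ g ∈ G, ∃ a : ℕ → 𝕜, g x = ∑ i ∈ Finset.range (m n), a i • e n i) →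
      ∃ b : ℕ → ℝ, (∀ i, 0 ≤ b i) ∧ ∑ i ∈ Finset.range (m n), b i ≤ L ∧
        ∀ g ∈ G, ∑ i ∈ Finset.range (m n), max (‖c n i (g x)‖ - b i) 0 ≤ ε := by
  classical
  obtain ⟨M₀, hM₀, C, hCc, hCM₀⟩ := ANT.coord h
  obtain ⟨-, Q, -, -, -, hQc, hQe⟩ := coords h
  set M : ℝ := max M₀ 0 with hMdef
  have hM0 : 0 ≤ M := le_max_right _ _
  have hM : ∀ n, ∀ i < m n, ‖e n i‖ ≤ M := fun n i hi => (hM₀ n i hi).trans (le_max_left _ _)
  have hCM : ∀ n x, ∑ i ∈ Finset.range (m n), ‖C n i x‖ ≤ M * ‖x‖ := fun n x =>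
    (hCM₀ n x).trans (mul_le_mul_of_nonneg_right (le_max_left _ _) (norm_nonneg _))
  set K' : ℝ := max K 0 with hK'def
  have hK0 : 0 ≤ K' := le_max_right _ _
  have hK' : ∀ g ∈ G, ∀ x, ‖g x‖ ≤ K' * ‖x‖ := fun g hg x =>
    (hK g hg x).trans (mul_le_mul_of_nonneg_right (le_max_left _ _) (norm_nonneg _))
  -- coordinates of block vectors
  have hδ : ∀ n, ∀ i < m n, ∀ l < m n, C n i (e n l) = if i = l then 1 else 0 := by
    intro n i hi l hl
    rw [hCc n i hi, ← hQc n (e n l) ⟨i, hi⟩, hQe n n ⟨i, hi⟩ ⟨l, hl⟩]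
    simp
  have hblock : ∀ n (y : X), (∃ a : ℕ → 𝕜, y = ∑ i ∈ Finset.range (m n), a i • e n i) →
      y = ∑ i ∈ Finset.range (m n), C n i y • e n i := by
    rintro n y ⟨a, ha⟩
    have h1 : ∀ i ∈ Finset.range (m n), C n i y = a i := by
      intro i hi
      rw [ha, map_sum, Finset.sum_eq_single i]
      · rw [map_smul, hδ n i (Finset.mem_range.1 hi) i (Finset.mem_range.1 hi), if_pos rfl,
          smul_eq_mul, mul_one]
      · intro l hl hli
        rw [map_smul, hδ n i (Finset.mem_range.1 hi) l (Finset.mem_range.1 hl),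
          if_neg (fun h => hli h.symm), smul_zero]
      · exact fun h => absurd hi h
    conv_lhs => rw [ha]
    exact Finset.sum_congr rfl (fun i hi => by rw [h1 i hi])
  have hexc : ∀ n (y : X) (b : ℕ → ℝ),
      ∑ i ∈ Finset.range (m n), max (‖c n i y‖ - b i) 0 =
        exc (Finset.range (m n)) (fun i => C n i y) b := by
    intro n y b
    unfold exc
    exact Finset.sum_congr rfl (fun i hi => by
      change _ = max (‖C n i y‖ - b i) 0
      rw [hCc n i (Finset.mem_range.1 hi)])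
  by_contra hcon
  have hcon' : ∀ L : ℕ, ∃ (n : ℕ) (x : X), ‖x‖ ≤ 1 ∧
      (∀ g ∈ G, ∃ a : ℕ → 𝕜, g x = ∑ i ∈ Finset.range (m n), a i • e n i) ∧
      ∀ b : ℕ → ℝ, (∀ i, 0 ≤ b i) → ∑ i ∈ Finset.range (m n), b i ≤ L →
        ∃ g ∈ G, ε < exc (Finset.range (m n)) (fun i => C n i (g x)) b := by
    intro L
    by_contra hno
    refine hcon ⟨L, fun n x hx hinv => ?_⟩
    by_contra hno2
    refine hno ⟨n, x, hx, hinv, fun b hb0 hbL => ?_⟩
    by_contra hno3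
    refine hno2 ⟨b, hb0, hbL, fun g hg => ?_⟩
    rw [hexc]
    by_contra hlt
    exact hno3 ⟨g, hg, not_le.1 hlt⟩
  choose n x hx hinv hnd using hcon'
  have htend : Tendsto n atTop atTop := by
    refine tendsto_atTop.2 (fun N => ?_)
    obtain ⟨k₀, hk₀⟩ := exists_nat_ge (∑ j ∈ Finset.range N, (m j : ℝ) * (M * K'))
    filter_upwards [eventually_ge_atTop k₀] with k hk
    by_contra hlt
    have hlt' : n k < N := not_le.1 hlt
    obtain ⟨g, hg, hbig⟩ := hnd k (fun _ => M * K') (fun _ => mul_nonneg hM0 hK0) (by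
      rw [Finset.sum_const, Finset.card_range, nsmul_eq_mul]
      have h1 : (m (n k) : ℝ) * (M * K') ≤ ∑ j ∈ Finset.range N, (m j : ℝ) * (M * K') :=
        Finset.single_le_sum (f := fun j => (m j : ℝ) * (M * K'))
          (fun j _ => mul_nonneg (Nat.cast_nonneg _) (mul_nonneg hM0 hK0))
          (Finset.mem_range.2 hlt')
      have h2 : (k₀ : ℝ) ≤ k := by exact_mod_cast hk
      linarith)
    have hzero : exc (Finset.range (m (n k))) (fun i => C (n k) i (g (x k)))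
        (fun _ => M * K') ≤ 0 := by
      unfold exc
      refine Finset.sum_nonpos (fun i hi => ?_)
      refine max_le ?_ le_rfl
      have h1 : ‖C (n k) i (g (x k))‖ ≤ ∑ i ∈ Finset.range (m (n k)), ‖C (n k) i (g (x k))‖ :=
        Finset.single_le_sum (f := fun i => ‖C (n k) i (g (x k))‖) (fun _ _ => norm_nonneg _) hi
      have h2 := hCM (n k) (g (x k))
      have h3 : ‖g (x k)‖ ≤ K' := by
        refine (hK' g hg _).trans ?_
        calc K' * ‖x k‖ ≤ K' * 1 := mul_le_mul_of_nonneg_left (hx k) hK0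
          _ = K' := mul_one K'
      have h4 := mul_le_mul_of_nonneg_left h3 hM0
      linarith
    linarith
  obtain ⟨φ, hφ, hν⟩ := strictMono_subseq_of_tendsto_atTop htend
  let y : ℕ → X := Function.extend (n ∘ φ) (x ∘ φ) (fun _ => 0)
  have hyν : ∀ k, y ((n ∘ φ) k) = x (φ k) := fun k => hν.injective.extend_apply _ _ k
  have hy1 : ∀ j, ‖y j‖ ≤ 1 := by
    intro j
    by_cases hj : ∃ k, (n ∘ φ) k = j
    · obtain ⟨k, rfl⟩ := hj
      rw [hyν]
      exact hx _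
    · have : y j = 0 := Function.extend_apply' _ _ _ hj
      rw [this, norm_zero]
      exact zero_le_one
  set ε₁ : ℝ := ε / (2 * (M * K' * M + 1)) with hε₁
  have hMKM : 0 ≤ M * K' * M := by positivity
  have hε₁0 : 0 < ε₁ := by positivity
  obtain ⟨A, hAB, hAi, L, b, hb0, hbL, hT⟩ := domination_lit h hE y 1 hy1 K' ε₁ hε₁0
    (Set.range (n ∘ φ)) (Set.infinite_range_of_injective hν.injective)
  have hA'i : ((n ∘ φ) ⁻¹' A).Infinite := hAi.preimage hAB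
  obtain ⟨J, p, b', hb'0, hb'L, hdom⟩ := seq_dom hr (fun k => m (n (φ k))) M hM0
    (fun k => C (n (φ k))) (fun k x => hCM _ x) (fun k => e (n (φ k))) (fun k => hM _) G K' hK0 hK'
    (fun k => x (φ k)) (fun k => hx _)
    (fun k g hg => hblock _ _ (hinv (φ k) g hg))
    (fun k => b (n (φ k))) (fun k i => hb0 _ i) L (fun k => hbL _) ((n ∘ φ) ⁻¹' A) ε₁ hε₁0
    (fun T hTn => by
      have h1 := hν.tendsto_atTop.eventually (hT T hTn)
      filter_upwards [h1] with k hk hkA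
      have h2 := hk hkA
      rw [hyν, hexc] at h2
      exact h2)
  obtain ⟨q, hq⟩ := exists_nat_ge (J * (M * K' * M * L))
  obtain ⟨k, hkA, hkq⟩ := hA'i.exists_gt (max p q)
  have hpk : p ≤ k := (le_max_left p q).trans hkq.le
  have hqk : q ≤ k := (le_max_right p q).trans hkq.le
  obtain ⟨g, hg, hbig⟩ := hnd (φ k) (b' k) (hb'0 k) (by
    have h1 := hb'L k
    have h2 : (q : ℝ) ≤ k := by exact_mod_cast hqk
    have h3 : (k : ℝ) ≤ φ k := by exact_mod_cast hφ.id_le k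
    linarith)
  have h1 := hdom k hkA hpk g hg
  have h2 : M * K' * M * (2 * ε₁) ≤ ε := by
    have h3 : (M * K' * M + 1) * (2 * ε₁) = ε := by
      rw [hε₁]
      field_simp
    have h4 : 0 ≤ 2 * ε₁ := by positivity
    nlinarith
  linarith

/-- Unit vectors of the blocks whose orbits are large at many places give complemented copies of
`ℓ_1` in `B(X)`. -/
theorem orbit_class [CompleteSpace X] (hr : IsReflexive 𝕜 X) {m : ℕ → ℕ} {e : ℕ → ℕ → X}
    {c : ℕ → ℕ → X → 𝕜} (h : ANT.IsL1Decomposition m e c)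
    (G : Subgroup (X ≃L[𝕜] X)) (K : ℝ) (hK : ∀ g ∈ G, ∀ x, ‖g x‖ ≤ K * ‖x‖)
    (ε : ℝ) (hε : 0 < ε)
    (hlarge : ∀ N : ℕ, ∃ (n : ℕ) (x : X), ‖x‖ ≤ 1 ∧
      (∀ g ∈ G, ∃ a : ℕ → 𝕜, g x = ∑ i ∈ Finset.range (m n), a i • e n i) ∧
      N ≤ {j : ℕ | j < m n ∧ ∃ g ∈ G, ε ≤ ‖c n j (g x)‖}.ncard) :
    ComplementedL1 𝕜 (X →L[𝕜] X) := by
  classical
  by_contra hE
  obtain ⟨L, hL⟩ := orbit_dom hr h hE G K hK (ε / 2) (half_pos hε)
  obtain ⟨N, hN⟩ := exists_nat_gt (L / (ε / 2))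
  rw [div_lt_iff₀ (half_pos hε)] at hN
  obtain ⟨n, x, hx, hinv, hcard⟩ := hlarge N
  obtain ⟨b, hb0, hbL, hb⟩ := hL n x hx hinv
  have hfin : {j : ℕ | j < m n ∧ ∃ g ∈ G, ε ≤ ‖c n j (g x)‖}.Finite :=
    (Set.finite_lt_nat (m n)).subset (fun j hj => hj.1)
  rw [Set.ncard_eq_toFinset_card _ hfin] at hcard
  have h1 : ∀ j ∈ hfin.toFinset, ε / 2 ≤ b j := by
    intro j hj
    obtain ⟨hjm, g, hg, hgj⟩ := (Set.Finite.mem_toFinset hfin).1 hj
    have h2 := hb g hg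
    have h3 : max (‖c n j (g x)‖ - b j) 0 ≤
        ∑ i ∈ Finset.range (m n), max (‖c n i (g x)‖ - b i) 0 :=
      Finset.single_le_sum (f := fun i => max (‖c n i (g x)‖ - b i) 0)
        (fun _ _ => le_max_right _ _) (Finset.mem_range.2 hjm)
    have h4 := le_max_left (‖c n j (g x)‖ - b j) 0
    linarith
  have h2 : ∑ j ∈ hfin.toFinset, b j ≤ ∑ i ∈ Finset.range (m n), b i :=
    Finset.sum_le_sum_of_subset_of_nonneg (fun j hj =>
      Finset.mem_range.2 ((Set.Finite.mem_toFinset hfin).1 hj).1) (fun _ _ _ => hb0 _)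
  have h3 : ∑ _j ∈ hfin.toFinset, ε / 2 ≤ ∑ j ∈ hfin.toFinset, b j := Finset.sum_le_sum h1
  rw [Finset.sum_const, nsmul_eq_mul] at h3
  have h4 : (N : ℝ) * (ε / 2) ≤ (hfin.toFinset.card : ℝ) * (ε / 2) :=
    mul_le_mul_of_nonneg_right (by exact_mod_cast hcard) (half_pos hε).le
  linarith

end Pool.Agent.DOMI
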