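import Pool.Agent.DOMI.Crit
import Pool.Agent.DOMI.Group

open Filter Topology

namespace Pool.Agent.DOMI

variable {𝕜 : Type*} [RCLike 𝕜]

theorem bv_same {m : ℕ} (i : Fin m) : (bv 𝕜 i) i = 1 := by simp [bv]

theorem bv_ne {m : ℕ} {i j : Fin m} (h : j ≠ i) : (bv 𝕜 i) j = 0 := by simp [bv, h]

theorem norm_bv {m : ℕ} (i : Fin m) : ‖bv 𝕜 i‖ = 1 := by
  simp [bv]

variable {X : Type*} [NormedAddCommGroup X] [NormedSpace 𝕜 X]

theorem norm_inclusion (x : X) : ‖NormedSpace.inclusionInDoubleDual 𝕜 X x‖ = ‖x‖ :=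
  (NormedSpace.inclusionInDoubleDualLi 𝕜 (E := X)).norm_map x

theorem inclusion_inj : Function.Injective (NormedSpace.inclusionInDoubleDual 𝕜 X) :=
  (NormedSpace.inclusionInDoubleDualLi 𝕜 (E := X)).injective

/-- weak operator limits of bounded families of operators in reflexive spaces -/
theorem wot_limit (hr : IsReflexive 𝕜 X) {ι : Type*} (W : Ultrafilter ι) (A : ι → X →L[𝕜] X)
    (K : ℝ) (hA : ∀ i x, ‖A i x‖ ≤ K * ‖x‖) :
    ∃ T : X →L[𝕜] X, (∀ x, ‖T x‖ ≤ K * ‖x‖) ∧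
      ∀ (x : X) (f : X →L[𝕜] 𝕜), Tendsto (fun i => f (A i x)) W (𝓝 (f (T x))) := by
  have h : ∀ x : X, ∃ y : X, ‖y‖ ≤ K * ‖x‖ ∧
      ∀ f : X →L[𝕜] 𝕜, Tendsto (fun i => f (A i x)) W (𝓝 (f y)) := by
    intro x
    have hK : 0 ≤ K * ‖x‖ ∨ IsEmpty ι := by
      by_cases hι : Nonempty ι
      · exact Or.inl ((norm_nonneg _).trans (hA hι.some x))
      · exact Or.inr (not_nonempty_iff.1 hι)
    rcases hK with hK | hι
    · obtain ⟨g, hg, hb⟩ := ulim_fun (E := X →L[𝕜] 𝕜) W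
        (fun i => NormedSpace.inclusionInDoubleDual 𝕜 X (A i x)) (K * ‖x‖) (fun i f => by
          refine (ContinuousLinearMap.le_opNorm _ f).trans ?_
          rw [norm_inclusion]
          exact mul_le_mul_of_nonneg_right (hA i x) (norm_nonneg _))
      obtain ⟨y, hy⟩ := hr g
      refine ⟨y, ?_, fun f => ?_⟩
      · rw [← norm_inclusion (𝕜 := 𝕜) y, hy]
        exact ContinuousLinearMap.opNorm_le_bound _ hK hb
      · have := hg f
        rw [← hy] at this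
        exact this
    · exact absurd W.neBot (fun hW => by
        have : (W : Filter ι) = ⊥ := by
          exact Filter.filter_eq_bot_of_isEmpty _
        exact hW.ne this)
  choose T hTb hT using h
  have hext : ∀ y z : X, (∀ f : X →L[𝕜] 𝕜, f y = f z) → y = z := fun y z hyz => by
    apply inclusion_inj (𝕜 := 𝕜)
    ext f
    exact hyz f
  have hadd : ∀ x y, T (x + y) = T x + T y := fun x y => by
    refine hext _ _ (fun f => tendsto_nhds_unique (hT (x + y) f) ?_)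
    rw [map_add]
    simpa using (hT x f).add (hT y f)
  have hsmul : ∀ (c : 𝕜) x, T (c • x) = c • T x := fun c x => by
    refine hext _ _ (fun f => tendsto_nhds_unique (hT (c • x) f) ?_)
    rw [map_smul]
    simpa using (hT x f).const_smul c
  exact ⟨LinearMap.mkContinuous { toFun := T, map_add' := hadd, map_smul' := hsmul } K hTb,
    hTb, hT⟩

/-- an ultrafilter picks a value of a function with finitely many values -/
theorem eventually_const {ι α : Type*} [Finite α] (W : Ultrafilter ι) (f : ι → α) :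
    ∃ a, ∀ᶠ i in (W : Filter ι), f i = a := by
  obtain ⟨a, ha⟩ := (W.map f).eq_pure_of_finite
  refine ⟨a, ?_⟩
  have h1 : ({a} : Set α) ∈ W.map f := by rw [ha]; exact Set.mem_singleton a
  exact Ultrafilter.mem_map.1 h1

/-- **Main theorem** for uniformly complemented copies `J n` of `ℓ_1^{m n}` with a bounded group
with large orbits on the basis lines. -/
theorem sym_main [CompleteSpace X] (hr : IsReflexive 𝕜 X) (m : ℕ → ℕ)
    (J : ∀ n, L1 𝕜 (m n) →L[𝕜] X) (Q : ∀ n, X →L[𝕜] L1 𝕜 (m n))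
    (hQJ : ∀ n v, Q n (J n v) = v) (C : ℝ) (hC : ∀ n, ‖Q n‖ * ‖J n‖ ≤ C)
    (G : Subgroup (X ≃L[𝕜] X)) (K : ℝ) (hK : ∀ g ∈ G, ∀ x, ‖g x‖ ≤ K * ‖x‖)
    (horb : ∀ N : ℕ, ∃ (n : ℕ) (i : Fin (m n)), LargeOrbit G (fun j => J n (bv 𝕜 j)) i N) :
    ComplementedL1 𝕜 (X →L[𝕜] X) := by
  classical
  have h0 := fun r : ℕ => horb ((r + 1) * 2 ^ (r + 1))
  choose n i hperm S hS hSg using h0
  set e : ℕ → X := fun r => J (n r) (bv 𝕜 (i r)) with he
  have hJne : ∀ n (j : Fin (m n)), J n (bv 𝕜 j) ≠ 0 := fun n j h => by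
    have h1 := hQJ n (bv 𝕜 j)
    rw [h, map_zero] at h1
    have h2 := norm_bv (𝕜 := 𝕜) j
    rw [← h1, norm_zero] at h2
    exact zero_ne_one h2
  -- the scalars are determined up to the basis line
  have hline : ∀ n (j l : Fin (m n)) (c d : 𝕜), c • J n (bv 𝕜 j) = d • J n (bv 𝕜 l) → c ≠ 0 →
      j = l := by
    intro n j l c d h hc
    by_contra hjl
    have h1 := congrArg (fun y => (Q n y) j) h
    simp only [map_smul, hQJ, PiLp.smul_apply, bv_same, bv_ne hjl, smul_eq_mul, mul_one,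
      mul_zero] at h1
    exact hc h1
  have hcne : ∀ g : X ≃L[𝕜] X, ∀ n (k j : Fin (m n)) (c : 𝕜),
      g (J n (bv 𝕜 k)) = c • J n (bv 𝕜 j) → c ≠ 0 := by
    intro g n k j c h hc
    rw [hc, zero_smul] at h
    exact hJne n k (by simpa using h)
  have hene : ∀ r, e r ≠ 0 := fun r => hJne _ _
  -- the stabilizers of the lines of `e r`
  let H : ℕ → Subgroup G := fun r =>
    { carrier := {g | ∃ c : 𝕜, (g : X ≃L[𝕜] X) (e r) = c • e r}
      mul_mem' := by
        rintro a b ⟨c, hc⟩ ⟨d, hd⟩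
        refine ⟨d * c, ?_⟩
        have : ((a * b : G) : X ≃L[𝕜] X) (e r) = (a : X ≃L[𝕜] X) ((b : X ≃L[𝕜] X) (e r)) := rfl
        rw [this, hd, map_smul, hc, smul_smul]
      one_mem' := ⟨1, by rw [one_smul]; rfl⟩
      inv_mem' := by
        rintro a ⟨c, hc⟩
        have hc0 : c ≠ 0 := hcne _ _ _ _ _ hc
        refine ⟨c⁻¹, ?_⟩
        have h1 : ((a⁻¹ : G) : X ≃L[𝕜] X) ((a : X ≃L[𝕜] X) (e r)) = e r := by
          change ((a : X ≃L[𝕜] X).symm) ((a : X ≃L[𝕜] X) (e r)) = e r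
          simp
        rw [hc, map_smul] at h1
        rw [← h1, smul_smul, inv_mul_cancel₀ hc0, one_smul, h1] }
  have hHmem : ∀ r (g : G), g ∈ H r ↔ ∃ c : 𝕜, (g : X ≃L[𝕜] X) (e r) = c • e r :=
    fun r g => Iff.rfl
  -- two elements with the same line lie in the same coset
  have hsame : ∀ r (g g' : G) (j : Fin (m (n r))) (c c' : 𝕜),
      (g : X ≃L[𝕜] X) (e r) = c • J (n r) (bv 𝕜 j) →
      (g' : X ≃L[𝕜] X) (e r) = c' • J (n r) (bv 𝕜 j) → g⁻¹ * g' ∈ H r := by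
    intro r g g' j c c' h h'
    have hc0 : c ≠ 0 := hcne _ _ _ _ _ h
    refine (hHmem r _).2 ⟨c' * c⁻¹, ?_⟩
    have h1 : ((g⁻¹ * g' : G) : X ≃L[𝕜] X) (e r)
        = (g : X ≃L[𝕜] X).symm ((g' : X ≃L[𝕜] X) (e r)) := rfl
    have h2 : J (n r) (bv 𝕜 j) = c⁻¹ • (g : X ≃L[𝕜] X) (e r) := by
      rw [h, smul_smul, inv_mul_cancel₀ hc0, one_smul]
    rw [h1, h', h2, smul_smul, map_smul, ContinuousLinearEquiv.symm_apply_apply]
  have hidx : ∀ r, (((H r).index : ℚ))⁻¹ ≤ 1 / (((r : ℚ) + 1) * 2 ^ (r + 1)) := by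
    intro r
    have h1 : ∀ j, ∃ g : G, j ∈ S r → ∃ c : 𝕜,
        (g : X ≃L[𝕜] X) (e r) = c • J (n r) (bv 𝕜 j) := fun j => by
      by_cases hj : j ∈ S r
      · obtain ⟨g, hg, c, hc⟩ := hSg r j hj
        exact ⟨⟨g, hg⟩, fun _ => ⟨c, hc⟩⟩
      · exact ⟨1, fun h => absurd h hj⟩
    choose γ hγ using h1
    have h2 := inv_index_le (H r) ((r + 1) * 2 ^ (r + 1)) (by positivity) (S r) (hS r) γ
      (fun a ha b hb hab => by
        obtain ⟨c, hc⟩ := hγ a ha
        obtain ⟨d, hd⟩ := hγ b hb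
        obtain ⟨k, hk⟩ := (hHmem r _).1 hab
        have h3 : ((γ b : G) : X ≃L[𝕜] X) (e r) = k • (γ a : X ≃L[𝕜] X) (e r) := by
          have h4 : ((γ b : G) : X ≃L[𝕜] X) (e r)
              = (γ a : X ≃L[𝕜] X) ((((γ a)⁻¹ * γ b : G) : X ≃L[𝕜] X) (e r)) := by
            have h5 : (((γ a)⁻¹ * γ b : G) : X ≃L[𝕜] X) (e r)
              = (γ a : X ≃L[𝕜] X).symm ((γ b : X ≃L[𝕜] X) (e r)) := rfl
            rw [h5, ContinuousLinearEquiv.apply_symm_apply]
          rw [h4, hk, map_smul]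
        rw [hc, hd, smul_smul] at h3
        exact (hline _ _ _ _ _ h3 (hcne _ _ _ _ _ hd)).symm)
    push_cast at h2
    exact h2
  -- the elements of `G`, for every `M`
  have h1 := fun M : ℕ => choose_elements H hidx M M
  choose g hg using h1
  set W : Ultrafilter ℕ := hyperfilter ℕ with hW
  have hge : ∀ N : ℕ, ∀ᶠ r in (W : Filter ℕ), N ≤ r := fun N =>
    Nat.hyperfilter_le_atTop (eventually_ge_atTop N)
  have hne : (W : Filter ℕ).NeBot := W.neBot
  have h2 := fun k : ℕ => wot_limit hr W (fun M => ((g M k : X ≃L[𝕜] X) : X →L[𝕜] X)) K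
    (fun M x => hK _ (g M k).2 x)
  choose t htb ht using h2
  have h3 := fun (k r M : ℕ) => hperm r _ (g M k).2
  choose s' c' hsc using h3
  have h4 := fun k r : ℕ => eventually_const W (fun M => s' k r M)
  choose s hs using h4
  have hK0 : 0 ≤ K := by
    have h5 := hK 1 G.one_mem (e 0)
    have h6 : 0 < ‖e 0‖ := norm_pos_iff.2 (hene 0)
    change ‖e 0‖ ≤ K * ‖e 0‖ at h5
    nlinarith
  have hK1 : 0 < K := by
    have h5 := hK 1 G.one_mem (e 0)
    have h6 : 0 < ‖e 0‖ := norm_pos_iff.2 (hene 0)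
    change ‖e 0‖ ≤ K * ‖e 0‖ at h5
    by_contra h7
    have h8 : K = 0 := le_antisymm (not_lt.1 h7) hK0
    rw [h8, zero_mul] at h5
    exact absurd h6 (not_lt.2 h5)
  have hJb : ∀ n (j : Fin (m n)), ‖J n (bv 𝕜 j)‖ ≤ ‖J n‖ := fun n j => by
    have := (J n).le_opNorm (bv 𝕜 j)
    rwa [norm_bv, mul_one] at this
  have hQb : ∀ n (j : Fin (m n)), 1 ≤ ‖Q n‖ * ‖J n (bv 𝕜 j)‖ := fun n j => by
    have := (Q n).le_opNorm (J n (bv 𝕜 j))
    rwa [hQJ, norm_bv] at this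
  have hC1 : 1 ≤ C := by
    refine (hQb (n 0) (i 0)).trans (le_trans ?_ (hC (n 0)))
    exact mul_le_mul_of_nonneg_left (hJb _ _) (norm_nonneg _)
  have hcl : ∀ k r M, 1 / (K * C) ≤ ‖c' k r M‖ := by
    intro k r M
    have h5 := hsc k r M
    have h6 := hK _ (G.inv_mem (g M k).2) (c' k r M • J (n r) (bv 𝕜 (s' k r M)))
    rw [← h5] at h6
    have h7 : ((g M k : X ≃L[𝕜] X)⁻¹) ((g M k : X ≃L[𝕜] X) (J (n r) (bv 𝕜 (i r))))
        = J (n r) (bv 𝕜 (i r)) := by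
      change ((g M k : X ≃L[𝕜] X).symm) _ = _
      simp
    rw [h7, h5, norm_smul] at h6
    have h8 := hQb (n r) (i r)
    have h9 := hJb (n r) (s' k r M)
    have h10 := hC (n r)
    rw [div_le_iff₀ (by positivity)]
    have h11 : ‖Q (n r)‖ * ‖J (n r) (bv 𝕜 (i r))‖
        ≤ ‖Q (n r)‖ * (K * (‖c' k r M‖ * ‖J (n r)‖)) := by
      refine mul_le_mul_of_nonneg_left (h6.trans ?_) (norm_nonneg _)
      exact mul_le_mul_of_nonneg_left (mul_le_mul_of_nonneg_left h9 (norm_nonneg _)) hK0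
    have h12 : ‖Q (n r)‖ * (K * (‖c' k r M‖ * ‖J (n r)‖))
        = ‖c' k r M‖ * K * (‖Q (n r)‖ * ‖J (n r)‖) := by ring
    have h13 : ‖c' k r M‖ * K * (‖Q (n r)‖ * ‖J (n r)‖) ≤ ‖c' k r M‖ * K * C :=
      mul_le_mul_of_nonneg_left h10 (by positivity)
    linarith
  -- coordinates of the limits
  have hcoord : ∀ k r (l : Fin (m (n r))),
      Tendsto (fun M => (Q (n r) ((g M k : X ≃L[𝕜] X) (e r))) l) W
        (𝓝 ((Q (n r) (t k (e r))) l)) := fun k r l =>
    ht k (e r) ((PiLp.proj (𝕜 := 𝕜) 1 (fun _ : Fin (m (n r)) => 𝕜) l).comp (Q (n r)))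
  have hval : ∀ k r M (l : Fin (m (n r))), (Q (n r) ((g M k : X ≃L[𝕜] X) (e r))) l
      = c' k r M * (bv 𝕜 (s' k r M)) l := by
    intro k r M l
    have h5 : (g M k : X ≃L[𝕜] X) (e r) = c' k r M • J (n r) (bv 𝕜 (s' k r M)) := hsc k r M
    rw [h5, map_smul, hQJ, PiLp.smul_apply, smul_eq_mul]
  let R : ∀ r, (X →L[𝕜] X) →L[𝕜] L1 𝕜 (m (n r)) := fun r =>
    (Q (n r)).comp (ContinuousLinearMap.apply 𝕜 X (e r))
  have hRv : ∀ r T, R r T = Q (n r) (T (e r)) := fun r T => rfl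
  refine crit (fun r => m (n r)) R C ?_ s ?_ t K ?_ (1 / (K * C)) (by positivity) ?_ ?_
  · intro r T
    rw [hRv]
    have h5 := (Q (n r)).le_opNorm (T (e r))
    have h6 := T.le_opNorm (e r)
    have h7 := hJb (n r) (i r)
    calc ‖Q (n r) (T (e r))‖ ≤ ‖Q (n r)‖ * (‖T‖ * ‖J (n r)‖) :=
          h5.trans (mul_le_mul_of_nonneg_left (h6.trans
            (mul_le_mul_of_nonneg_left h7 (norm_nonneg _))) (norm_nonneg _))
      _ = (‖Q (n r)‖ * ‖J (n r)‖) * ‖T‖ := by ring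
      _ ≤ C * ‖T‖ := mul_le_mul_of_nonneg_right (hC _) (norm_nonneg _)
  · intro j k r hjk hkr hjkeq
    have hev : ∀ᶠ M in (W : Filter ℕ), s' j r M = s j r ∧ s' k r M = s k r ∧ r + 1 ≤ M :=
      (hs j r).and ((hs k r).and (hge (r + 1)))
    obtain ⟨M, hM1, hM2, hM3⟩ := hev.exists
    refine hg M j k r hjk (by omega) hkr (by omega) ?_
    refine hsame r (g M j) (g M k) (s j r) (c' j r M) (c' k r M) ?_ ?_
    · rw [← hM1]; exact hsc j r M
    · rw [hjkeq, ← hM2]; exact hsc k r M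
  · intro k
    exact ContinuousLinearMap.opNorm_le_bound _ hK0 (htb k)
  · intro k r l hl
    rw [hRv]
    refine tendsto_nhds_unique (hcoord k r l) ?_
    refine tendsto_const_nhds.congr' ?_
    filter_upwards [hs k r] with M hM
    rw [hval, hM, bv_ne hl, mul_zero]
  · intro k r
    rw [hRv]
    refine ge_of_tendsto (hcoord k r (s k r)).norm ?_
    filter_upwards [hs k r] with M hM
    rw [hval, hM, bv_same, mul_one]
    exact hcl k r M

end Pool.Agent.DOMI
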